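import Pool.Agent.H385R8.AHDefs

/-!
TEAM Q4, project AH (helper385), task AH1.
-/

open Complex Filter Topology Set MeasureTheory

set_option maxHeartbeats 4000000

namespace H385

open Pool.Agent.H304R3.HK (tc HC CS bb LamK psi bH aH LH Rep)

theorem ah1_norm (a : ZI) : (nrm a : ℤ) = a.re ^ 2 + a.im ^ 2 := by
  unfold nrm
  have h : a.norm = a.re ^ 2 + a.im ^ 2 := by
    rw [Zsqrtd.norm_def]; ring
  rw [h]
  exact Int.natAbs_of_nonneg (by positivity)

theorem ah1_mem (N : ℕ) (a : ZI) : a ∈ BX N ↔ 1 ≤ nrm a ∧ nrm a ≤ N := by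
  have h := ah1_norm a
  unfold BX
  simp only [Finset.mem_image, Finset.mem_filter, Finset.mem_product, Finset.mem_Icc, Prod.exists]
  constructor
  · rintro ⟨x, y, ⟨_, h1, h2⟩, rfl⟩
    simp only at h
    constructor <;> omega
  · rintro ⟨h1, h2⟩
    have h3 : a.re ^ 2 + a.im ^ 2 ≤ (N : ℤ) := by omega
    have h4 : 1 ≤ a.re ^ 2 + a.im ^ 2 := by omega
    refine ⟨a.re, a.im, ⟨⟨⟨?_, ?_⟩, ?_, ?_⟩, h4, h3⟩, rfl⟩
    · nlinarith [sq_nonneg (a.re + 1), sq_nonneg a.im, sq_nonneg a.re, Int.le_self_sq (-a.re)]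
    · nlinarith [sq_nonneg a.im, Int.le_self_sq a.re]
    · nlinarith [sq_nonneg a.re, Int.le_self_sq (-a.im)]
    · nlinarith [sq_nonneg a.re, Int.le_self_sq a.im]

theorem ah1_nmul (a b : ZI) : nrm (a * b) = nrm a * nrm b := by
  unfold nrm
  rw [Zsqrtd.norm_mul, Int.natAbs_mul]

theorem ah1_irr (a : ZI) (h : (nrm a).Prime) : Irreducible a := by
  rw [irreducible_iff]
  constructor
  · intro hu
    have := Zsqrtd.norm_eq_one_iff.2 hu
    exact h.one_lt.ne' this
  · intro b c hbc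
    rw [hbc, ah1_nmul] at h
    rcases Nat.prime_mul_iff.1 h with h1 | h1
    · right
      exact Zsqrtd.norm_eq_one_iff.1 h1.2
    · left
      exact Zsqrtd.norm_eq_one_iff.1 h1.2

theorem ah1_prime (a : ZI) (h : (nrm a).Prime) : Prime a := (ah1_irr a h).prime

/-- the units -/
def ah1_U : Finset ZI := {⟨1, 0⟩, ⟨0, 1⟩, ⟨-1, 0⟩, ⟨0, -1⟩}

theorem ah1_unit (u : ZI) (hu : IsUnit u) : u ∈ ah1_U := by
  have h := Zsqrtd.norm_eq_one_iff.2 hu
  have h1 : (nrm u : ℤ) = 1 := by
    unfold nrm; rw [h]; rfl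
  rw [ah1_norm] at h1
  have h2 : -1 ≤ u.re ∧ u.re ≤ 1 := by
    constructor <;> nlinarith [sq_nonneg u.im, sq_nonneg u.re]
  have h3 : -1 ≤ u.im ∧ u.im ≤ 1 := by
    constructor <;> nlinarith [sq_nonneg u.im, sq_nonneg u.re]
  obtain ⟨x, y⟩ := u
  simp only at h1 h2 h3
  obtain ⟨h2a, h2b⟩ := h2
  obtain ⟨h3a, h3b⟩ := h3
  unfold ah1_U
  simp only [Finset.mem_insert, Finset.mem_singleton, Zsqrtd.mk.injEq]
  interval_cases x <;> interval_cases y <;> simp_all

theorem ah1_card : ah1_U.card = 4 := by decide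

/-- each unit has an inverse unit, and the product of values is preserved -/
theorem ah1_inv (v w : ZI → ℂ) (hv : Eqv v) (hw : Eqv w) (u : ZI) (hu : u ∈ ah1_U) :
    ∃ u' : ZI, u * u' = 1 ∧ nrm u = 1 ∧ nrm u' = 1 ∧
      (∀ a c : ZI, v (u * a) * w (u' * c) = v a * w c) := by
  have e2 : ∀ (b : ZI → ℂ), Eqv b → ∀ a, b (⟨-1, 0⟩ * a) = - b a := by
    intro b hb a
    have h : (⟨-1, 0⟩ : ZI) * a = im1 * (im1 * a) := by
      rw [← mul_assoc]
      congr 1
    rw [h, hb, hb, ← mul_assoc, I_mul_I, neg_one_mul]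
  have e1 : ∀ (b : ZI → ℂ), Eqv b → ∀ a, b (⟨0, 1⟩ * a) = I * b a := by
    intro b hb a
    exact hb a
  have e3 : ∀ (b : ZI → ℂ), Eqv b → ∀ a, b (⟨0, -1⟩ * a) = - (I * b a) := by
    intro b hb a
    have h : (⟨0, -1⟩ : ZI) * a = im1 * (⟨-1, 0⟩ * a) := by
      rw [← mul_assoc]
      congr 1
    rw [h, hb, e2 b hb, mul_neg]
  have e0 : ∀ (b : ZI → ℂ), ∀ a, b (⟨1, 0⟩ * a) = b a := by
    intro b a
    have h : (⟨1, 0⟩ : ZI) = 1 := rfl
    rw [h, one_mul]
  unfold ah1_U at hu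
  simp only [Finset.mem_insert, Finset.mem_singleton] at hu
  rcases hu with rfl | rfl | rfl | rfl
  · exact ⟨⟨1, 0⟩, by decide, by decide, by decide, fun a c => by rw [e0 v, e0 w]⟩
  · refine ⟨⟨0, -1⟩, by decide, by decide, by decide, fun a c => ?_⟩
    rw [e1 v hv, e3 w hw]
    linear_combination (- v a * w c) * I_mul_I
  · refine ⟨⟨-1, 0⟩, by decide, by decide, by decide, fun a c => ?_⟩
    rw [e2 v hv, e2 w hw]; ring
  · refine ⟨⟨0, 1⟩, by decide, by decide, by decide, fun a c => ?_⟩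
    rw [e3 v hv, e1 w hw]
    linear_combination (- v a * w c) * I_mul_I

open Classical in
theorem ah1_S (N : ℕ) (v w : ZI → ℂ) (hv : ∀ a, ¬ (nrm a).Prime → v a = 0)
    (hv1 : Eqv v) (hw1 : Eqv w) (a c : ZI)
    (ha : a ∈ BX N) (hc : c ∈ BX N) (hpa : (nrm a).Prime) (hpc : (nrm c).Prime) :
    ∑ x ∈ BX N, ∑ y ∈ BX N, (if x * y = a * c then v x * w y else 0) =
      4 * (v a * w c) + (if Associated a c then 0 else 4 * (v c * w a)) := by
  have ha0 : a ≠ 0 := (ah1_irr a hpa).ne_zero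
  have hc0 : c ≠ 0 := (ah1_irr c hpc).ne_zero
  -- the inner sum at a unit multiple
  have key : ∀ (a c : ZI), a ≠ 0 → a ∈ BX N → c ∈ BX N → ∀ x ∈ ah1_U.image (fun u => u * a),
      ∑ y ∈ BX N, (if x * y = a * c then v x * w y else 0) = v a * w c := by
    intro a c ha0 ha hc x hx
    rw [Finset.mem_image] at hx
    obtain ⟨u, hu, rfl⟩ := hx
    obtain ⟨u', h1, h2, h3, h4⟩ := ah1_inv v w hv1 hw1 u hu
    rw [Finset.sum_eq_single (u' * c)]
    · rw [if_pos, h4]
      calc u * a * (u' * c) = (u * u') * (a * c) := by ring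
        _ = a * c := by rw [h1, one_mul]
    · intro y _ hy
      rw [if_neg]
      intro h
      apply hy
      have : a * (u * y) = a * c := by rw [← h]; ring
      have h5 := mul_left_cancel₀ ha0 this
      rw [← h5]
      calc y = (u * u') * y := by rw [h1, one_mul]
        _ = u' * (u * y) := by ring
    · intro h
      exfalso
      apply h
      rw [ah1_mem, ah1_nmul, h3, one_mul]
      exact (ah1_mem N c).1 hc
  have hsub : ∀ a ∈ BX N, ah1_U.image (fun u => u * a) ⊆ BX N := by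
    intro a ha x hx
    rw [Finset.mem_image] at hx
    obtain ⟨u, hu, rfl⟩ := hx
    obtain ⟨u', h1, h2, h3, h4⟩ := ah1_inv v w hv1 hw1 u hu
    rw [ah1_mem, ah1_nmul, h2, one_mul]
    exact (ah1_mem N a).1 ha
  have hcard : ∀ a : ZI, a ≠ 0 → (ah1_U.image (fun u => u * a)).card = 4 := by
    intro a ha
    rw [Finset.card_image_of_injective _ (mul_left_injective₀ ha), ah1_card]
  have hassoc : ∀ a x : ZI, Associated a x → x ∈ ah1_U.image (fun u => u * a) := by
    rintro a x ⟨u, rfl⟩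
    rw [Finset.mem_image]
    exact ⟨u, ah1_unit _ u.isUnit, mul_comm _ _⟩
  have hassoc' : ∀ a x : ZI, x ∈ ah1_U.image (fun u => u * a) → Associated a x := by
    intro a x hx
    rw [Finset.mem_image] at hx
    obtain ⟨u, hu, rfl⟩ := hx
    obtain ⟨u', h1, h2, h3, h4⟩ := ah1_inv v w hv1 hw1 u hu
    exact ⟨⟨u, u', h1, by rw [mul_comm]; exact h1⟩, mul_comm _ _⟩
  -- vanishing outside
  have hout : ∀ x ∈ BX N, x ∉ ah1_U.image (fun u => u * a) ∪ ah1_U.image (fun u => u * c) →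
      ∑ y ∈ BX N, (if x * y = a * c then v x * w y else 0) = 0 := by
    intro x hx hx2
    apply Finset.sum_eq_zero
    intro y _
    split_ifs with h
    · by_cases hp : (nrm x).Prime
      · exfalso
        apply hx2
        rw [Finset.mem_union]
        have hd : x ∣ a * c := ⟨y, h.symm⟩
        rcases (ah1_prime x hp).dvd_or_dvd hd with h1 | h1
        · left
          exact hassoc a x ((ah1_irr x hp).associated_of_dvd (ah1_irr a hpa) h1).symm
        · right
          exact hassoc c x ((ah1_irr x hp).associated_of_dvd (ah1_irr c hpc) h1).symm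
      · rw [hv x hp, zero_mul]
    · rfl
  have hU : ah1_U.image (fun u => u * a) ∪ ah1_U.image (fun u => u * c) ⊆ BX N :=
    Finset.union_subset (hsub a ha) (hsub c hc)
  rw [← Finset.sum_subset hU hout]
  by_cases hac : Associated a c
  · rw [if_pos hac, add_zero]
    have he : ah1_U.image (fun u => u * a) ∪ ah1_U.image (fun u => u * c) =
        ah1_U.image (fun u => u * a) := by
      rw [Finset.union_eq_left]
      intro x hx
      exact hassoc a x (hac.trans (hassoc' c x hx))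
    rw [he, Finset.sum_congr rfl (key a c ha0 ha hc), Finset.sum_const, hcard a ha0,
      nsmul_eq_mul]
    norm_num
  · rw [if_neg hac, Finset.sum_union]
    · rw [Finset.sum_congr rfl (key a c ha0 ha hc), Finset.sum_const, hcard a ha0,
        nsmul_eq_mul, mul_comm a c, Finset.sum_congr rfl (key c a hc0 hc ha), Finset.sum_const,
        hcard c hc0, nsmul_eq_mul]
      norm_num
    · rw [Finset.disjoint_left]
      intro x h1 h2
      exact hac ((hassoc' a x h1).trans (hassoc' c x h2).symm)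

/-- swapping two associated elements -/
theorem ah1_swap (v w : ZI → ℂ) (hv1 : Eqv v) (hw1 : Eqv w) (a c : ZI) (h : Associated a c) :
    v c * w a = v a * w c := by
  obtain ⟨u, rfl⟩ := h
  have hu := ah1_unit _ u.isUnit
  obtain ⟨u', h1, h2, h3, h4⟩ := ah1_inv v w hv1 hw1 u hu
  have h5 := h4 a (a * u)
  have e1 : a * (u : ZI) = u * a := mul_comm _ _
  have e2 : u' * (a * u) = a := by
    calc u' * (a * u) = ((u : ZI) * u') * a := by ring
      _ = a := by rw [h1, one_mul]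
  rw [e2, ← e1] at h5
  exact h5

/-- AH1: products of two elements of prime norm -/
theorem prime_prodZ (N : ℕ) (v w : ZI → ℂ) (hv : ∀ a, ¬ (nrm a).Prime → v a = 0)
    (hw : ∀ a, ¬ (nrm a).Prime → w a = 0) (hv1 : Eqv v) (hw1 : Eqv w) :
    ∑ k ∈ BX (N ^ 2), ‖∑ a ∈ BX N, ∑ c ∈ BX N, (if a * c = k then v a * w c else 0)‖ ^ 2 ≤
      4 * ((∑ a ∈ BX N, ‖v a‖ ^ 2) * (∑ a ∈ BX N, ‖w a‖ ^ 2) +
        ‖∑ a ∈ BX N, v a * (starRingEnd ℂ) (w a)‖ ^ 2) := by
  classical
  set S : ZI → ℂ := fun k => ∑ a ∈ BX N, ∑ c ∈ BX N, (if a * c = k then v a * w c else 0)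
    with hS
  have hL : ∑ k ∈ BX (N ^ 2), ‖S k‖ ^ 2 =
      ∑ a ∈ BX N, ∑ c ∈ BX N, ((v a * w c) * (starRingEnd ℂ) (S (a * c))).re := by
    have h1 : ∀ k, ‖S k‖ ^ 2 = ∑ a ∈ BX N, ∑ c ∈ BX N,
        (if a * c = k then ((v a * w c) * (starRingEnd ℂ) (S (a * c))).re else 0) := by
      intro k
      have h2 : ‖S k‖ ^ 2 = (S k * (starRingEnd ℂ) (S k)).re := by
        rw [Complex.mul_conj, Complex.ofReal_re, Complex.normSq_eq_norm_sq]
      rw [h2]
      conv_lhs => rw [hS]
      simp only []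
      rw [Finset.sum_mul, Complex.re_sum]
      apply Finset.sum_congr rfl
      intro a _
      rw [Finset.sum_mul, Complex.re_sum]
      apply Finset.sum_congr rfl
      intro c _
      split_ifs with h
      · rw [h]
      · simp
    rw [Finset.sum_congr rfl (fun k _ => h1 k), Finset.sum_comm]
    apply Finset.sum_congr rfl
    intro a ha
    rw [Finset.sum_comm]
    apply Finset.sum_congr rfl
    intro c hc
    rw [Finset.sum_ite_eq, if_pos]
    rw [ah1_mem, ah1_nmul]
    rw [ah1_mem] at ha hc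
    refine ⟨Nat.mul_pos ha.1 hc.1, ?_⟩
    rw [sq]
    exact Nat.mul_le_mul ha.2 hc.2
  have hR : 4 * ((∑ a ∈ BX N, ‖v a‖ ^ 2) * (∑ a ∈ BX N, ‖w a‖ ^ 2) +
        ‖∑ a ∈ BX N, v a * (starRingEnd ℂ) (w a)‖ ^ 2) =
      ∑ a ∈ BX N, ∑ c ∈ BX N, (4 * ‖v a * w c‖ ^ 2 +
        4 * ((v a * w c) * (starRingEnd ℂ) (v c * w a)).re) := by
    have h1 : ‖∑ a ∈ BX N, v a * (starRingEnd ℂ) (w a)‖ ^ 2 =
        ∑ a ∈ BX N, ∑ c ∈ BX N, ((v a * w c) * (starRingEnd ℂ) (v c * w a)).re := by
      have h2 : ∀ z : ℂ, ‖z‖ ^ 2 = (z * (starRingEnd ℂ) z).re := by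
        intro z
        rw [Complex.mul_conj, Complex.ofReal_re, Complex.normSq_eq_norm_sq]
      rw [h2, map_sum, Finset.sum_mul_sum, Complex.re_sum]
      apply Finset.sum_congr rfl
      intro a _
      rw [Complex.re_sum]
      apply Finset.sum_congr rfl
      intro c _
      congr 1
      simp only [map_mul, Complex.conj_conj]
      ring
    rw [h1, Finset.sum_mul_sum, ← Finset.sum_add_distrib, Finset.mul_sum]
    apply Finset.sum_congr rfl
    intro a _
    rw [← Finset.sum_add_distrib, Finset.mul_sum]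
    apply Finset.sum_congr rfl
    intro c _
    rw [norm_mul]; ring
  rw [hL, hR]
  apply Finset.sum_le_sum
  intro a ha
  apply Finset.sum_le_sum
  intro c hc
  by_cases hpa : (nrm a).Prime
  · by_cases hpc : (nrm c).Prime
    · have hSv : S (a * c) = 4 * (v a * w c) + (if Associated a c then 0 else 4 * (v c * w a)) :=
        ah1_S N v w hv hv1 hw1 a c ha hc hpa hpc
      rw [hSv]
      have h2 : ∀ z : ℂ, ‖z‖ ^ 2 = (z * (starRingEnd ℂ) z).re := by
        intro z
        rw [Complex.mul_conj, Complex.ofReal_re, Complex.normSq_eq_norm_sq]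
      by_cases hac : Associated a c
      · rw [if_pos hac, ah1_swap v w hv1 hw1 a c hac, ← h2]
        have h3 : (v a * w c * (starRingEnd ℂ) (4 * (v a * w c) + 0)).re =
            4 * ‖v a * w c‖ ^ 2 := by
          rw [add_zero, map_mul, h2]
          have h4 : (starRingEnd ℂ) (4 : ℂ) = ((4 : ℝ) : ℂ) := by
            rw [show (4 : ℂ) = ((4 : ℝ) : ℂ) by norm_num, Complex.conj_ofReal]
          rw [h4, ← mul_assoc, mul_comm (v a * w c) (((4 : ℝ) : ℂ)), mul_assoc,
            Complex.re_ofReal_mul]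
        rw [h3]
        have := sq_nonneg ‖v a * w c‖
        linarith
      · rw [if_neg hac]
        apply le_of_eq
        have h4 : (starRingEnd ℂ) (4 : ℂ) = ((4 : ℝ) : ℂ) := by
          rw [show (4 : ℂ) = ((4 : ℝ) : ℂ) by norm_num, Complex.conj_ofReal]
        rw [map_add, map_mul _ (4 : ℂ), map_mul _ (4 : ℂ), h4, h2, mul_add, Complex.add_re,
          ← Complex.re_ofReal_mul, ← Complex.re_ofReal_mul]
        congr 2 <;> ring
    · rw [hw c hpc]; simp
  · rw [hv a hpa]; simp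

end H385
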