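import Pool.Agent.H385R8.AHDefs

/-!
TEAM Q4, project AH (helper385), task AH10 (helper296).
-/

open Complex Filter Topology Set MeasureTheory

set_option maxHeartbeats 4000000

namespace H385

open Pool.Agent.H304R3.HK (tc HC CS bb LamK psi bH aH LH Rep)

/-- the coefficients restricted to the elements coprime to `q` -/
theorem ah10_zero {q x : ZI} (χ : MulChar (RQ q) ℂ) (hx : ¬ IsCoprime x q) : chiZ q χ x = 0 := by
  change χ (Ideal.Quotient.mk (Ideal.span {q}) x) = 0
  apply MulChar.map_nonunit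
  intro hu
  apply hx
  obtain ⟨y, hy⟩ := hu.exists_right_inv
  obtain ⟨u, rfl⟩ := Ideal.Quotient.mk_surjective y
  rw [← map_mul, ← map_one (Ideal.Quotient.mk (Ideal.span {q})), Ideal.Quotient.eq,
    Ideal.mem_span_singleton] at hy
  obtain ⟨v, hv⟩ := hy
  exact ⟨u, -v, by linear_combination hv⟩

theorem ah10_pow {w : ZI → ℂ} (hw : Eqv w) (a : ZI) (j : ℕ) :
    w (im1 ^ j * a) = I ^ j * w a ∧ nrm (im1 ^ j * a) = nrm a := by
  induction j with
  | zero => simp
  | succ j ih =>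
    have e : im1 ^ (j + 1) * a = im1 * (im1 ^ j * a) := by ring
    rw [e, hw, HE4.nrm_im1, ih.1, ih.2]
    refine ⟨by ring, rfl⟩

open Classical in
/-- AH10: exact orthogonality for short sums (from `fq_orth`) -/
theorem fq_exact (q : ZI) (N : ℕ) (hN : 4 * N < nrm q) (b : ZI → ℂ) (hb : Eqv b) :
    ∑ χ ∈ FQs q, ‖(1 / 4 : ℂ) * SC (BX N) b q χ‖ ^ 2 =
      (phiQ q : ℝ) / 4 *
        ((1 / 4 : ℝ) * ∑ a ∈ (BX N).filter (fun a => IsCoprime a q), ‖b a‖ ^ 2) := by
  have hq : q ≠ 0 := by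
    rintro rfl
    have : nrm (0 : ZI) = 0 := by
      unfold nrm
      simp
    omega
  have hsc : ∀ χ : MulChar (RQ q) ℂ, SC (BX N) b q χ =
      ∑ a ∈ (BX N).filter (fun a => IsCoprime a q), b a * chiZ q χ a := by
    intro χ
    unfold SC
    rw [Finset.sum_filter]
    refine Finset.sum_congr rfl fun a _ => ?_
    split_ifs with h
    · rfl
    · rw [ah10_zero χ h, mul_zero]
  set S := (BX N).filter (fun a => IsCoprime a q) with hS
  have hmem : ∀ a, a ∈ S ↔ (1 ≤ nrm a ∧ nrm a ≤ N) ∧ IsCoprime a q := by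
    intro a
    rw [hS, Finset.mem_filter, HE4.mem_BX]
  have h1 : ∀ χ : MulChar (RQ q) ℂ,
      ((‖(1 / 4 : ℂ) * SC (BX N) b q χ‖ ^ 2 : ℝ) : ℂ) =
      (1 / 16 : ℂ) * ∑ a ∈ S, ∑ b' ∈ S, (b a * (starRingEnd ℂ) (b b')) *
        (chiZ q χ a * (starRingEnd ℂ) (chiZ q χ b')) := by
    intro χ
    rw [hsc χ]
    push_cast
    rw [← Complex.mul_conj']
    rw [map_mul, map_sum]
    have e4 : (starRingEnd ℂ) (1 / 4 : ℂ) = 1 / 4 := by
      rw [map_div₀, map_one, Complex.conj_ofNat]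
    rw [e4]
    have e5 : (1 / 4 : ℂ) * (∑ a ∈ S, b a * chiZ q χ a) *
        (1 / 4 * ∑ a ∈ S, (starRingEnd ℂ) (b a * chiZ q χ a)) =
        1 / 16 * ((∑ a ∈ S, b a * chiZ q χ a) *
          ∑ a ∈ S, (starRingEnd ℂ) (b a * chiZ q χ a)) := by ring
    rw [e5, Finset.sum_mul_sum]
    congr 1
    refine Finset.sum_congr rfl fun a _ => Finset.sum_congr rfl fun b' _ => ?_
    rw [map_mul]
    ring
  have h2 : ((∑ χ ∈ FQs q, ‖(1 / 4 : ℂ) * SC (BX N) b q χ‖ ^ 2 : ℝ) : ℂ) =
      (((phiQ q : ℝ) / 4 * ((1 / 4 : ℝ) * ∑ a ∈ S, ‖b a‖ ^ 2) : ℝ) : ℂ) := by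
    rw [Complex.ofReal_sum, Finset.sum_congr rfl fun χ _ => h1 χ, ← Finset.mul_sum,
      Finset.sum_comm]
    have h3 : ∀ a ∈ S, ∑ χ ∈ FQs q, ∑ b' ∈ S, (b a * (starRingEnd ℂ) (b b')) *
        (chiZ q χ a * (starRingEnd ℂ) (chiZ q χ b')) = (phiQ q : ℂ) * ((‖b a‖ ^ 2 : ℝ) : ℂ) := by
      intro a ha
      rw [Finset.sum_comm]
      have h4 : ∀ b' ∈ S, ∑ χ ∈ FQs q, (b a * (starRingEnd ℂ) (b b')) *
          (chiZ q χ a * (starRingEnd ℂ) (chiZ q χ b')) =
          (phiQ q : ℂ) / 4 * ∑ j ∈ Finset.range 4,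
        (if im1 ^ j * a = b' then I ^ j * (b a * (starRingEnd ℂ) (b b')) else 0) := by
        intro b' hb'
        rw [← Finset.mul_sum]
        have ha' := (hmem a).1 ha
        have hb'' := (hmem b').1 hb'
        rw [fq_orth q hq a b' ha'.2 hb''.2]
        rw [Finset.mul_sum, Finset.mul_sum, Finset.mul_sum]
        refine Finset.sum_congr rfl fun j _ => ?_
        have h1 := HE4.eq_of_mk q N hN (im1 ^ j * a) b' (by rw [(ah10_pow hb a j).2]; exact ha'.1.2)
          hb''.1.2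
        by_cases h2 : im1 ^ j * a = b'
        · rw [if_pos (h1.2 h2), if_pos h2]
          ring
        · rw [if_neg (fun h3 => h2 (h1.1 h3)), if_neg h2]
          ring
      rw [Finset.sum_congr rfl h4, ← Finset.mul_sum, Finset.sum_comm]
      have h5 : ∀ j ∈ Finset.range 4, ∑ b' ∈ S, (if im1 ^ j * a = b' then
          I ^ j * (b a * (starRingEnd ℂ) (b b')) else 0) =
          ((‖b a‖ ^ 2 : ℝ) : ℂ) := by
        intro j _
        have hm : im1 ^ j * a ∈ S := by
          rw [hmem] at ha ⊢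
          rw [(ah10_pow hb a j).2]
          refine ⟨ha.1, ?_⟩
          have hu : IsUnit (im1 ^ j) := HE4.unit_im1.pow j
          exact (isCoprime_mul_unit_left_left hu a q).2 ha.2
        rw [Finset.sum_ite_eq, if_pos hm, (ah10_pow hb a j).1, map_mul, map_pow, Complex.conj_I]
        have e6 : I ^ j * (-I) ^ j = 1 := by
          rw [← mul_pow]
          have : I * -I = 1 := by
            rw [mul_neg, Complex.I_mul_I, neg_neg]
          rw [this, one_pow]
        push_cast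
        rw [← Complex.mul_conj']
        linear_combination (b a * (starRingEnd ℂ) (b a)) * e6
      rw [Finset.sum_congr rfl h5, Finset.sum_const, Finset.card_range, nsmul_eq_mul]
      push_cast
      ring
    rw [Finset.sum_congr rfl h3, ← Finset.mul_sum]
    push_cast
    ring
  exact_mod_cast h2

end H385
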