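import Pool.Agent.H385R8.AHDefs

/-!
TEAM Q4, project AH (helper385), task AH3 (helper532).
-/

open Complex Filter Topology Set MeasureTheory

set_option maxHeartbeats 4000000

namespace H385

open Pool.Agent.H304R3.HK (tc HC CS bb LamK psi bH aH LH Rep)

namespace AH3

theorem nrm_mul (a b : ZI) : nrm (a * b) = nrm a * nrm b := by
  unfold nrm; rw [Zsqrtd.norm_mul, Int.natAbs_mul]

theorem nrm_cast (a : ZI) : (nrm a : ℤ) = a.norm := by
  unfold nrm
  rw [Int.natCast_natAbs, abs_of_nonneg (GaussianInt.norm_nonneg a)]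

theorem nrm_one_iff (a : ZI) : nrm a = 1 ↔ IsUnit a := by
  unfold nrm; exact Zsqrtd.norm_eq_one_iff

theorem prime_of_nrm {a : ZI} (h : (nrm a).Prime) : Prime a := by
  rw [← irreducible_iff_prime]
  refine ⟨?_, ?_⟩
  · intro hu
    rw [← nrm_one_iff] at hu
    rw [hu] at h
    exact Nat.not_prime_one h
  · intro x y hxy
    rw [hxy, nrm_mul] at h
    rcases Nat.prime_mul_iff.mp h with ⟨_, h2⟩ | ⟨_, h2⟩
    · right; rwa [← nrm_one_iff]
    · left; rwa [← nrm_one_iff]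

theorem LamK_prime {a : ZI} (h : (nrm a).Prime) : LamK a = Real.log (nrm a : ℝ) := by
  rw [Pool.Agent.H304R3.HK.M4.LamK_eq (prime_of_nrm h) one_pos (by rw [pow_one])]
  have : ((nrm a : ℤ) : ℝ) = ((a.norm : ℤ) : ℝ) := by rw [nrm_cast]
  rw [← this]
  norm_cast

theorem nrm_im1 (a : ZI) : nrm (im1 * a) = nrm a := by
  rw [nrm_mul]
  have : nrm im1 = 1 := by
    unfold nrm im1; simp [Zsqrtd.norm_def]
  rw [this, one_mul]

theorem tc_im1 (a : ZI) : tc (im1 * a) = I * tc a := by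
  unfold tc im1
  have h1 : (((⟨0, 1⟩ : ZI) * a).re) = -a.im := by simp [Zsqrtd.re_mul]
  have h2 : (((⟨0, 1⟩ : ZI) * a).im) = a.re := by simp [Zsqrtd.im_mul]
  rw [h1, h2]
  push_cast
  linear_combination (-(a.im : ℂ)) * I_sq

theorem tc_ne {a : ZI} (h : nrm a ≠ 0) : tc a ≠ 0 := by
  intro h0
  apply h
  have h1 : (tc a).re = (a.re : ℝ) := by unfold tc; simp
  have h2 : (tc a).im = (a.im : ℝ) := by unfold tc; simp
  have e1 : (a.re : ℝ) = 0 := by rw [← h1, h0]; rfl
  have e2 : (a.im : ℝ) = 0 := by rw [← h2, h0]; rfl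
  have e3 : a.re = 0 := by exact_mod_cast e1
  have e4 : a.im = 0 := by exact_mod_cast e2
  unfold nrm
  rw [Zsqrtd.norm_def, e3, e4]
  simp

theorem wQ_prime (b : ℕ → ℂ) {a : ZI} (h : (nrm a).Prime) :
    wQ b a = ((ArithmeticFunction.vonMangoldt (nrm a) : ℝ) : ℂ) * (tc a / (‖tc a‖ : ℂ)) *
      b (nrm a) := by
  unfold wQ wZ
  rw [if_pos h, if_pos isCoprime_one_right, LamK_prime h,
    ArithmeticFunction.vonMangoldt_apply_prime h]

theorem wQ_np (b : ℕ → ℂ) {a : ZI} (h : ¬ (nrm a).Prime) : wQ b a = 0 := by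
  unfold wQ; rw [if_neg h]

theorem wQ_norm (b : ℕ → ℂ) {a : ZI} (h : (nrm a).Prime) :
    ‖wQ b a‖ = ArithmeticFunction.vonMangoldt (nrm a) * ‖b (nrm a)‖ := by
  rw [wQ_prime b h, norm_mul, norm_mul, norm_div, Complex.norm_real, Complex.norm_real,
    Real.norm_of_nonneg ArithmeticFunction.vonMangoldt_nonneg, norm_norm,
    div_self (norm_ne_zero_iff.mpr (tc_ne h.ne_zero)), mul_one]

/-- the four units -/
def U4 : Finset ZI := {⟨1, 0⟩, ⟨-1, 0⟩, ⟨0, 1⟩, ⟨0, -1⟩}

theorem mem_U4 {u : ZI} (h : nrm u = 1) : u ∈ U4 := by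
  have h1 : u.re ^ 2 + u.im ^ 2 = 1 := by
    have := nrm_cast u
    rw [h, Zsqrtd.norm_def] at this
    push_cast at this
    linarith
  have a1 : u.re ≤ 1 := by nlinarith [sq_nonneg u.im]
  have a2 : -1 ≤ u.re := by nlinarith [sq_nonneg u.im]
  have a3 : u.im ≤ 1 := by nlinarith [sq_nonneg u.re]
  have a4 : -1 ≤ u.im := by nlinarith [sq_nonneg u.re]
  obtain ⟨x, y⟩ := u
  simp only at h1 a1 a2 a3 a4
  unfold U4
  simp only [Finset.mem_insert, Finset.mem_singleton, Zsqrtd.mk.injEq]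
  interval_cases x <;> interval_cases y <;> omega

theorem U4_card : U4.card ≤ 4 := by
  unfold U4
  exact Finset.card_le_four

theorem card8 {n : ℕ} (hn : n.Prime) (s : Finset ZI) (hs : ∀ a ∈ s, nrm a = n) : s.card ≤ 8 := by
  classical
  rcases s.eq_empty_or_nonempty with rfl | ⟨p, hp⟩
  · simp
  have hpn := hs p hp
  have hpp : Prime p := prime_of_nrm (by rw [hpn]; exact hn)
  have hp0 : n ≠ 0 := hn.ne_zero
  have hself : ∀ a : ZI, nrm a = n → a * star a = (n : ZI) := by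
    intro a ha
    have h1 := Zsqrtd.norm_eq_mul_conj a
    rw [← h1, ← nrm_cast, ha]
    norm_cast
  have hstar : ∀ a : ZI, nrm (star a) = nrm a := by
    intro a; unfold nrm; rw [Zsqrtd.norm_conj]
  have hsub : s ⊆ (U4.image (fun u => p * u)) ∪ (U4.image (fun u => star p * u)) := by
    intro a ha
    have han := hs a ha
    have hdvd : p ∣ a * star a := by
      rw [hself a han, ← hself p hpn]; exact dvd_mul_right _ _
    rw [Finset.mem_union, Finset.mem_image, Finset.mem_image]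
    rcases hpp.dvd_or_dvd hdvd with ⟨u, hu⟩ | ⟨u, hu⟩
    · left
      refine ⟨u, mem_U4 ?_, hu.symm⟩
      have h2 : n = n * nrm u := by
        conv_lhs => rw [← han, hu, nrm_mul, hpn]
      exact Nat.eq_of_mul_eq_mul_left (Nat.pos_of_ne_zero hp0) (by omega)
    · right
      refine ⟨star u, mem_U4 ?_, ?_⟩
      · have h2 : n = n * nrm u := by
          conv_lhs => rw [← han, ← hstar, hu, nrm_mul, hpn]
        rw [hstar]
        exact Nat.eq_of_mul_eq_mul_left (Nat.pos_of_ne_zero hp0) (by omega)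
      · have h3 : a = star (star a) := (star_star a).symm
        rw [h3, hu, star_mul, mul_comm]
  calc s.card ≤ _ := Finset.card_le_card hsub
    _ ≤ (U4.image (fun u => p * u)).card + (U4.image (fun u => star p * u)).card :=
        Finset.card_union_le _ _
    _ ≤ 4 + 4 := Nat.add_le_add (Finset.card_image_le.trans U4_card)
        (Finset.card_image_le.trans U4_card)

end AH3

/-- AH3: properties of the coefficients -/
theorem wq_props (b : ℕ → ℂ) : (∀ a, ¬ (nrm a).Prime → wQ b a = 0) ∧ Eqv (wQ b) ∧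
    (∀ a : ZI, (nrm a).Prime → ‖wQ b a‖ = ArithmeticFunction.vonMangoldt (nrm a) * ‖b (nrm a)‖) ∧
    (∀ a : ZI, ‖wQ b a‖ ≤ ‖wZ 1 b a‖) ∧
    (∀ n : ℕ, ((BX n).filter (fun a => nrm a = n)).card ≤ 8 ∨ ¬ n.Prime) := by
  refine ⟨fun a h => AH3.wQ_np b h, ?_, fun a h => AH3.wQ_norm b h, ?_, ?_⟩
  · intro a
    by_cases h : (nrm a).Prime
    · have h' : (nrm (im1 * a)).Prime := by rw [AH3.nrm_im1]; exact h
      rw [AH3.wQ_prime b h, AH3.wQ_prime b h', AH3.nrm_im1, AH3.tc_im1, norm_mul, Complex.norm_I,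
        one_mul]
      ring
    · have h' : ¬ (nrm (im1 * a)).Prime := by rw [AH3.nrm_im1]; exact h
      rw [AH3.wQ_np b h, AH3.wQ_np b h', mul_zero]
  · intro a
    by_cases h : (nrm a).Prime
    · unfold wQ; rw [if_pos h]
    · rw [AH3.wQ_np b h, norm_zero]; exact norm_nonneg _
  · intro n
    by_cases h : n.Prime
    · left
      exact AH3.card8 h _ (fun a ha => (Finset.mem_filter.mp ha).2)
    · right; exact h

/-- AH3: continuity and integrability of the coefficients -/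
theorem wq_int : ∃ C : ℝ, 0 < C ∧ ∀ (T κ u : ℝ) (a : ZI), 1 ≤ κ → κ ≤ T → 1 ≤ T →
    T ≤ Real.exp (κ ^ 2) →
    Continuous (fun t => wQ (bn T u t) a) ∧ Integrable (fun t => ‖wQ (bn T u t) a‖ ^ 2) ∧
    ∫ t : ℝ, ‖wQ (bn T u t) a‖ ^ 2 ≤ C * T * ((Real.log (nrm a)) ^ 2 / nrm a) := by
  obtain ⟨C, hC, h⟩ := AE6.cpr_sq
  refine ⟨C, hC, fun T κ u a h1 h2 h3 h4 => ?_⟩
  obtain ⟨g1, g2⟩ := h 1 T κ u (nrm a) h1 h2 h3 h4
  have key : ∀ t, ‖wQ (bn T u t) a‖ = ‖cpr 1 T u t (nrm a)‖ := by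
    intro t
    by_cases hp : (nrm a).Prime
    · rw [AH3.wQ_norm _ hp]
      unfold cpr
      rw [if_pos ⟨hp, Nat.coprime_one_right _⟩, norm_mul, Complex.norm_real,
        Real.norm_of_nonneg ArithmeticFunction.vonMangoldt_nonneg]
    · rw [AH3.wQ_np _ hp]
      unfold cpr
      rw [if_neg (fun h => hp h.1)]
  simp_rw [key]
  refine ⟨?_, g1, g2⟩
  by_cases hp : (nrm a).Prime
  · have e : (fun t => wQ (bn T u t) a) = fun t =>
        ((ArithmeticFunction.vonMangoldt (nrm a) : ℝ) : ℂ) * (tc a / (‖tc a‖ : ℂ)) *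
      bn T u t (nrm a) := by
      ext t; rw [AH3.wQ_prime _ hp]
    rw [e]
    unfold bn
    have := (bt_cont T (Real.log (nrm a))).comp (Continuous.prodMk_right (X := ℝ) (Y := ℝ) u)
    exact continuous_const.mul (continuous_const.mul this)
  · have e : (fun t => wQ (bn T u t) a) = fun t => 0 := by
      ext t; rw [AH3.wQ_np _ hp]
    rw [e]
    exact continuous_const

end H385
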