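import Pool.Agent.H385R8.AHDefs
import Pool.Agent.H385R8.AH6

/-!
TEAM Q4, project AH (helper385), task AH7.
-/

open Complex Filter Topology Set MeasureTheory

set_option maxHeartbeats 4000000

namespace H385

open Pool.Agent.H304R3.HK (tc HC CS bb LamK psi bH aH LH Rep)

theorem ah7_psi_per {q : ZI} (hq : q ≠ 0) (χ : MulChar (RQ q) ℂ) (d : ZI) (hd : He9D q χ d)
    {a b : ZI} (h : d ∣ a - b) : he9_psi q hq χ d hd a = he9_psi q hq χ d hd b := by
  by_cases hb : IsCoprime b d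
  · obtain ⟨b1, b2⟩ := (he9_lift q d b hq hb).choose_spec
    rw [he9_psi_eq b2 (a := b) ((dvd_sub_comm).1 b1), he9_psi_eq b2 (a := a)]
    have h1 := dvd_sub h b1
    have h2 : a - b - ((he9_lift q d b hq hb).choose - b) =
      a - (he9_lift q d b hq hb).choose := by ring
    rwa [h2] at h1
  · have ha : ¬ IsCoprime a d := fun h' => hb (he9_cop ((dvd_sub_comm).1 h) h')
    rw [he9_psi_zero ha, he9_psi_zero hb]

/-- a representative of a residue class -/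
noncomputable def ah7_s (d : ZI) (x : RQ d) : ZI :=
  Function.surjInv (f := Ideal.Quotient.mk (Ideal.span {d})) Ideal.Quotient.mk_surjective x

theorem ah7_s_spec (d : ZI) (x : RQ d) : Ideal.Quotient.mk (Ideal.span {d}) (ah7_s d x) = x :=
  Function.surjInv_eq (f := Ideal.Quotient.mk (Ideal.span {d})) Ideal.Quotient.mk_surjective x

theorem ah7_dvd {d a b : ZI} : Ideal.Quotient.mk (Ideal.span {d}) a =
    Ideal.Quotient.mk (Ideal.span {d}) b ↔ d ∣ a - b := by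
  rw [Ideal.Quotient.eq, Ideal.mem_span_singleton]

/-- the character modulo `d` inducing `χ` -/
noncomputable def ah7_Psi (q : ZI) (hq : q ≠ 0) (χ : MulChar (RQ q) ℂ) (d : ZI)
    (hd : He9D q χ d) : MulChar (RQ d) ℂ where
  toFun x := he9_psi q hq χ d hd (ah7_s d x)
  map_one' := by
    rw [← map_one (he9_psi q hq χ d hd)]
    apply ah7_psi_per
    rw [← ah7_dvd, ah7_s_spec, map_one]
  map_mul' x y := by
    rw [← map_mul]
    apply ah7_psi_per
    rw [← ah7_dvd, ah7_s_spec, map_mul, ah7_s_spec, ah7_s_spec]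
  map_nonunit' x hx := by
    apply he9_psi_zero
    intro h
    apply hx
    rw [← ah7_s_spec d x]
    exact he9_unit d _ h

theorem ah7_Psi_eq {q : ZI} (hq : q ≠ 0) (χ : MulChar (RQ q) ℂ) (d : ZI)
    (hd : He9D q χ d) {a : ZI} (ha : IsCoprime a q) :
    chiZ d (ah7_Psi q hq χ d hd) a = chiZ q χ a := by
  show he9_psi q hq χ d hd (ah7_s d (Ideal.Quotient.mk (Ideal.span {d}) a)) = _
  have h1 : he9_psi q hq χ d hd (ah7_s d (Ideal.Quotient.mk (Ideal.span {d}) a)) =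
      he9_psi q hq χ d hd a := by
    apply ah7_psi_per
    rw [← ah7_dvd, ah7_s_spec]
  rw [h1]
  exact he9_psi_eq ha (by rw [sub_self]; exact dvd_zero _)

theorem ah7_phi_le {d : ZI} (hd : d ≠ 0) : (phiQ d : ℝ) ≤ nrm d := by
  have hfq := he9_fin hd
  have h2 : phiQ d ≤ nrm d := by
    rw [← HG6a_card d, phiQ]
    exact Nat.card_le_card_of_injective (fun u : (RQ d)ˣ => (u : RQ d)) Units.val_injective
  exact_mod_cast h2

theorem ah7_im_dvd (d a c : ZI) (j : ℕ) (hj : j < 4) :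
    d ∣ im1 ^ j * a - c ↔ d ∣ a - im1 ^ (4 - j) * c := by
  have h4 : im1 ^ 4 = 1 := by decide
  have h5 : im1 ^ (4 - j) * im1 ^ j = 1 := by
    rw [← pow_add, Nat.sub_add_cancel hj.le, h4]
  constructor
  · rintro ⟨k, hk⟩
    refine ⟨im1 ^ (4 - j) * k, ?_⟩
    linear_combination im1 ^ (4 - j) * hk - a * h5
  · rintro ⟨k, hk⟩
    refine ⟨im1 ^ j * k, ?_⟩
    linear_combination im1 ^ j * hk + c * h5

open Classical in
/-- upper bound for the mean square over the characters modulo `d` -/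
theorem ah7_ls {d : ZI} (hd : d ≠ 0) (N : ℕ) (M : ℝ)
    (hM : ∀ c : ZI, (((BX N).filter (fun a => d ∣ a - c)).card : ℝ) ≤ M) (b : ZI → ℂ)
    (hb : ∀ a, ¬ IsCoprime a d → b a = 0) :
    ∑ ψ ∈ FQs d, ‖SC (BX N) b d ψ‖ ^ 2 ≤ (phiQ d : ℝ) * M * ∑ a ∈ BX N, ‖b a‖ ^ 2 := by
  set δ : ℕ → ZI → ZI → ℝ := fun j a c => if d ∣ im1 ^ j * a - c then 1 else 0 with hδ
  have hδ0 : ∀ j a c, 0 ≤ δ j a c := by
    intro j a c
    simp only [hδ]
    split_ifs <;> norm_num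
  -- counting
  have hc1 : ∀ j a, ∑ c ∈ BX N, δ j a c ≤ M := by
    intro j a
    have h1 : ∑ c ∈ BX N, δ j a c = (((BX N).filter (fun c => d ∣ c - im1 ^ j * a)).card : ℝ) := by
      simp only [hδ]
      rw [Finset.sum_ite, Finset.sum_const_zero, add_zero, Finset.sum_const, nsmul_eq_mul, mul_one]
      congr 2
      ext c
      simp only [Finset.mem_filter]
      rw [dvd_sub_comm]
    rw [h1]
    exact hM _
  have hc2 : ∀ j ∈ Finset.range 4, ∀ c, ∑ a ∈ BX N, δ j a c ≤ M := by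
    intro j hj c
    rw [Finset.mem_range] at hj
    have h1 : ∑ a ∈ BX N, δ j a c =
        (((BX N).filter (fun a => d ∣ a - im1 ^ (4 - j) * c)).card : ℝ) := by
      simp only [hδ]
      rw [Finset.sum_ite, Finset.sum_const_zero, add_zero, Finset.sum_const, nsmul_eq_mul, mul_one]
      congr 2
      ext a
      simp only [Finset.mem_filter]
      rw [ah7_im_dvd d a c j hj]
    rw [h1]
    exact hM _
  -- expansion of the square
  have h1 : ((∑ ψ ∈ FQs d, ‖SC (BX N) b d ψ‖ ^ 2 : ℝ) : ℂ) =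
      ∑ a ∈ BX N, ∑ c ∈ BX N, (b a * (starRingEnd ℂ) (b c)) *
        ((phiQ d : ℂ) / 4 * ∑ j ∈ Finset.range 4, I ^ j * ((δ j a c : ℝ) : ℂ)) := by
    have h2 : ∀ ψ : MulChar (RQ d) ℂ, ((‖SC (BX N) b d ψ‖ ^ 2 : ℝ) : ℂ) =
        ∑ a ∈ BX N, ∑ c ∈ BX N, (b a * (starRingEnd ℂ) (b c)) *
          (chiZ d ψ a * (starRingEnd ℂ) (chiZ d ψ c)) := by
      intro ψ
      push_cast
      rw [← Complex.mul_conj', SC, map_sum, Finset.sum_mul_sum]
      refine Finset.sum_congr rfl fun a _ => Finset.sum_congr rfl fun c _ => ?_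
      rw [map_mul]
      ring
    rw [Complex.ofReal_sum, Finset.sum_congr rfl fun ψ _ => h2 ψ, Finset.sum_comm]
    refine Finset.sum_congr rfl fun a _ => ?_
    rw [Finset.sum_comm]
    refine Finset.sum_congr rfl fun c _ => ?_
    rw [← Finset.mul_sum]
    by_cases ha : IsCoprime a d
    · by_cases hc : IsCoprime c d
      · rw [fq_orth d hd a c ha hc]
        congr 2
        refine Finset.sum_congr rfl fun j _ => ?_
        congr 1
        simp only [hδ]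
        by_cases h : d ∣ im1 ^ j * a - c
        · rw [if_pos h, if_pos (ah7_dvd.2 h), Complex.ofReal_one]
        · rw [if_neg h, if_neg (fun h' => h (ah7_dvd.1 h')), Complex.ofReal_zero]
      · rw [hb c hc, map_zero, mul_zero, zero_mul, zero_mul]
    · rw [hb a ha, zero_mul, zero_mul, zero_mul]
  have h2 : ∑ ψ ∈ FQs d, ‖SC (BX N) b d ψ‖ ^ 2 ≤
      ∑ a ∈ BX N, ∑ c ∈ BX N, (‖b a‖ * ‖b c‖) *
        ((phiQ d : ℝ) / 4 * ∑ j ∈ Finset.range 4, δ j a c) := by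
    have h3 : ∑ ψ ∈ FQs d, ‖SC (BX N) b d ψ‖ ^ 2 =
        ‖((∑ ψ ∈ FQs d, ‖SC (BX N) b d ψ‖ ^ 2 : ℝ) : ℂ)‖ := by
      rw [Complex.norm_real, Real.norm_of_nonneg]
      exact Finset.sum_nonneg fun _ _ => sq_nonneg _
    rw [h3, h1]
    refine (norm_sum_le _ _).trans (Finset.sum_le_sum fun a _ => ?_)
    refine (norm_sum_le _ _).trans (Finset.sum_le_sum fun c _ => ?_)
    rw [norm_mul, norm_mul, norm_mul, RCLike.norm_conj]
    refine mul_le_mul_of_nonneg_left ?_ (by positivity)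
    have h4 : ‖(phiQ d : ℂ) / 4‖ = (phiQ d : ℝ) / 4 := by
      rw [norm_div, Complex.norm_natCast, Complex.norm_ofNat]
    rw [h4]
    refine mul_le_mul_of_nonneg_left ?_ (by positivity)
    refine (norm_sum_le _ _).trans (Finset.sum_le_sum fun j _ => ?_)
    rw [norm_mul, norm_pow, Complex.norm_I, one_pow, one_mul, Complex.norm_real,
      Real.norm_of_nonneg (hδ0 j a c)]
  refine h2.trans ?_
  have hphi : (0 : ℝ) ≤ (phiQ d : ℝ) / 8 := by positivity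
  have h5 : ∑ a ∈ BX N, ∑ c ∈ BX N, (‖b a‖ * ‖b c‖) *
        ((phiQ d : ℝ) / 4 * ∑ j ∈ Finset.range 4, δ j a c) ≤
      ∑ a ∈ BX N, ∑ c ∈ BX N, ((phiQ d : ℝ) / 8 * ∑ j ∈ Finset.range 4,
        (‖b a‖ ^ 2 * δ j a c + ‖b c‖ ^ 2 * δ j a c)) := by
    refine Finset.sum_le_sum fun a _ => Finset.sum_le_sum fun c _ => ?_
    have h6 : ∑ j ∈ Finset.range 4, (‖b a‖ ^ 2 * δ j a c + ‖b c‖ ^ 2 * δ j a c) =
        (‖b a‖ ^ 2 + ‖b c‖ ^ 2) * ∑ j ∈ Finset.range 4, δ j a c := by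
      rw [Finset.mul_sum]
      refine Finset.sum_congr rfl fun j _ => by ring
    rw [h6]
    have h7 : 0 ≤ ∑ j ∈ Finset.range 4, δ j a c := Finset.sum_nonneg fun j _ => hδ0 j a c
    have h8 : 2 * (‖b a‖ * ‖b c‖) ≤ ‖b a‖ ^ 2 + ‖b c‖ ^ 2 := by
      nlinarith [sq_nonneg (‖b a‖ - ‖b c‖)]
    have h9 := mul_le_mul_of_nonneg_right h8 (mul_nonneg hphi h7)
    nlinarith [h9]
  refine h5.trans ?_
  have h10 : ∑ a ∈ BX N, ∑ c ∈ BX N, ((phiQ d : ℝ) / 8 * ∑ j ∈ Finset.range 4,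
        (‖b a‖ ^ 2 * δ j a c + ‖b c‖ ^ 2 * δ j a c)) =
      (phiQ d : ℝ) / 8 * (∑ j ∈ Finset.range 4, ((∑ a ∈ BX N, ‖b a‖ ^ 2 * ∑ c ∈ BX N, δ j a c) +
        ∑ c ∈ BX N, ‖b c‖ ^ 2 * ∑ a ∈ BX N, δ j a c)) := by
    simp only [← Finset.mul_sum]
    congr 1
    rw [Finset.sum_congr rfl fun a _ => Finset.sum_comm, Finset.sum_comm]
    refine Finset.sum_congr rfl fun j _ => ?_
    simp only [Finset.sum_add_distrib]
    congr 1
    · simp only [Finset.mul_sum]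
    · rw [Finset.sum_comm]
      simp only [Finset.mul_sum]
  rw [h10]
  have h11 : ∀ j ∈ Finset.range 4, (∑ a ∈ BX N, ‖b a‖ ^ 2 * ∑ c ∈ BX N, δ j a c) +
        ∑ c ∈ BX N, ‖b c‖ ^ 2 * ∑ a ∈ BX N, δ j a c ≤ 2 * (M * ∑ a ∈ BX N, ‖b a‖ ^ 2) := by
    intro j hj
    have e1 : ∑ a ∈ BX N, ‖b a‖ ^ 2 * ∑ c ∈ BX N, δ j a c ≤ M * ∑ a ∈ BX N, ‖b a‖ ^ 2 := by
      rw [Finset.mul_sum]
      refine Finset.sum_le_sum fun a _ => ?_
      rw [mul_comm M]
      exact mul_le_mul_of_nonneg_left (hc1 j a) (sq_nonneg _)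
    have e2 : ∑ c ∈ BX N, ‖b c‖ ^ 2 * ∑ a ∈ BX N, δ j a c ≤ M * ∑ a ∈ BX N, ‖b a‖ ^ 2 := by
      rw [Finset.mul_sum]
      refine Finset.sum_le_sum fun a _ => ?_
      rw [mul_comm M]
      exact mul_le_mul_of_nonneg_left (hc2 j hj a) (sq_nonneg _)
    linarith
  have h12 := Finset.sum_le_sum h11
  rw [Finset.sum_const, Finset.card_range, nsmul_eq_mul] at h12
  have h13 := mul_le_mul_of_nonneg_left h12 hphi
  refine h13.trans (le_of_eq ?_)
  push_cast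
  ring

open Classical in
/-- AH7: characters modulo `q` which factor through `d` (uses AH6) -/
theorem hd_ls : ∃ C : ℝ, 0 < C ∧ ∀ (q d : ZI) (N : ℕ) (b : ZI → ℂ), q ≠ 0 → d ∣ q →
    ∑ χ ∈ (FQs q).filter (fun χ => ∀ u : ZI, IsCoprime u q → d ∣ u - 1 → chiZ q χ u = 1),
      ‖SC (BX N) b q χ‖ ^ 2 ≤ C * ((N : ℝ) + nrm d) * ∑ n ∈ BX N, ‖b n‖ ^ 2 := by
  obtain ⟨C, hC, hcount⟩ := class_count
  refine ⟨C, hC, fun q d N b hq hdq => ?_⟩
  have hd0 : d ≠ 0 := fun h => hq (by rw [h] at hdq; exact zero_dvd_iff.1 hdq)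
  have hnd : (0 : ℝ) < nrm d := by exact_mod_cast HG6a_nrm_pos hd0
  set S := (FQs q).filter (fun χ => ∀ u : ZI, IsCoprime u q → d ∣ u - 1 → chiZ q χ u = 1) with hS
  have hD : ∀ χ ∈ S, He9D q χ d := fun χ hχ => ⟨hdq, (Finset.mem_filter.1 hχ).2⟩
  set b1 : ZI → ℂ := fun a => if IsCoprime a q then b a else 0 with hb1
  -- the map to characters modulo `d`
  let Ψ : MulChar (RQ q) ℂ → MulChar (RQ d) ℂ := fun χ =>
    if h : He9D q χ d then ah7_Psi q hq χ d h else 1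
  have hΨ : ∀ χ ∈ S, ∀ a, IsCoprime a q → chiZ d (Ψ χ) a = chiZ q χ a := by
    intro χ hχ a ha
    simp only [Ψ, dif_pos (hD χ hχ)]
    exact ah7_Psi_eq hq χ d (hD χ hχ) ha
  have hinj : Set.InjOn Ψ S := by
    intro χ hχ χ' hχ' h
    apply hg5b_ext
    intro x hx
    rw [← hΨ χ hχ x hx, ← hΨ χ' hχ' x hx, h]
  have hmem : ∀ χ ∈ S, Ψ χ ∈ FQs d := by
    intro χ hχ
    have h1 := (fq_finite q hq).2.2 χ
    rw [(fq_finite d hd0).2.2, hΨ χ hχ im1]
    · exact h1.1 (Finset.mem_filter.1 hχ).1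
    · exact ⟨⟨0, -1⟩, 0, by rw [zero_mul, add_zero]; decide⟩
  have hSC : ∀ χ ∈ S, SC (BX N) b q χ = SC (BX N) b1 d (Ψ χ) := by
    intro χ hχ
    unfold SC
    refine Finset.sum_congr rfl fun a _ => ?_
    simp only [hb1]
    split_ifs with h
    · rw [hΨ χ hχ a h]
    · rw [hg5b_zero χ h, mul_zero, zero_mul]
  have h1 : ∑ χ ∈ S, ‖SC (BX N) b q χ‖ ^ 2 ≤ ∑ ψ ∈ FQs d, ‖SC (BX N) b1 d ψ‖ ^ 2 := by
    rw [Finset.sum_congr rfl fun χ hχ => by rw [hSC χ hχ],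
      ← Finset.sum_image (f := fun ψ => ‖SC (BX N) b1 d ψ‖ ^ 2) hinj]
    refine Finset.sum_le_sum_of_subset_of_nonneg ?_ fun _ _ _ => sq_nonneg _
    intro ψ hψ
    obtain ⟨χ, hχ, rfl⟩ := Finset.mem_image.1 hψ
    exact hmem χ hχ
  have h2 := ah7_ls hd0 N (C * ((N : ℝ) / nrm d + 1)) (fun c => hcount d c N hd0) b1 (by
    intro a ha
    simp only [hb1]
    rw [if_neg]
    intro h
    exact ha (h.of_isCoprime_of_dvd_right hdq))
  refine (h1.trans h2).trans ?_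
  have h3 : ∑ a ∈ BX N, ‖b1 a‖ ^ 2 ≤ ∑ a ∈ BX N, ‖b a‖ ^ 2 := by
    refine Finset.sum_le_sum fun a _ => ?_
    simp only [hb1]
    split_ifs
    · exact le_rfl
    · rw [norm_zero, zero_pow two_ne_zero]
      exact sq_nonneg _
  have h4 : (phiQ d : ℝ) * (C * ((N : ℝ) / nrm d + 1)) ≤ C * ((N : ℝ) + nrm d) := by
    have h5 := ah7_phi_le hd0
    have h6 : (0 : ℝ) ≤ C * ((N : ℝ) / nrm d + 1) := by positivity
    calc (phiQ d : ℝ) * (C * ((N : ℝ) / nrm d + 1)) ≤ nrm d * (C * ((N : ℝ) / nrm d + 1)) :=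
          mul_le_mul_of_nonneg_right h5 h6
      _ = C * ((N : ℝ) + nrm d) := by
          field_simp
  refine mul_le_mul h4 h3 (Finset.sum_nonneg fun _ _ => sq_nonneg _) (by positivity)

end H385
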