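import Pool.Agent.H385R8.AHDefs

/-!
TEAM Q4, project AH (helper385), task AH8 (helper605).
-/

open Complex Filter Topology Set MeasureTheory

set_option maxHeartbeats 4000000

namespace H385

open Pool.Agent.H304R3.HK (tc HC CS bb LamK psi bH aH LH Rep)

theorem ah8_nrm_one : nrm (1 : ZI) = 1 := by
  simp [nrm]

open Classical in
theorem ah8_inner (K X Y : ℕ) (d : ZI) (hd : d ∈ BX Y) (c : ℝ) :
    ∑ q ∈ (BX Y).filter (fun q => X < nrm q ∧ d ∣ q ∧ K * nrm d < nrm q),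
      (1 / (nrm q : ℝ) ^ 2) * c =
    ∑ k ∈ (BX Y).filter (fun k => K < nrm k ∧ X < nrm d * nrm k ∧ nrm d * nrm k ≤ Y),
      (1 / ((nrm d : ℝ) * nrm k) ^ 2) * c := by
  rw [HG6b.mem_BX] at hd
  have hd0 := HG6b.nrm_pos hd.1
  symm
  refine Finset.sum_bij (fun k _ => d * k) ?_ ?_ ?_ ?_
  · intro k hk
    rw [Finset.mem_filter, HG6b.mem_BX] at hk
    obtain ⟨⟨hk0, hkY⟩, h1, h2, h3⟩ := hk
    rw [Finset.mem_filter, HG6b.mem_BX, HG6b.nrm_mul]
    exact ⟨⟨mul_ne_zero hd.1 hk0, h3⟩, h2, dvd_mul_right d k, by nlinarith⟩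
  · intro a _ b _ h
    exact mul_left_cancel₀ hd.1 h
  · intro q hq
    rw [Finset.mem_filter, HG6b.mem_BX] at hq
    obtain ⟨⟨hq0, hqY⟩, h1, ⟨k, rfl⟩, h3⟩ := hq
    have hk0 : k ≠ 0 := right_ne_zero_of_mul hq0
    have hkp := HG6b.nrm_pos hk0
    rw [HG6b.nrm_mul] at hqY h1 h3
    refine ⟨k, ?_, rfl⟩
    rw [Finset.mem_filter, HG6b.mem_BX]
    refine ⟨⟨hk0, by nlinarith⟩, ?_, h1, hqY⟩
    rw [mul_comm] at h3
    exact lt_of_mul_lt_mul_left h3 (Nat.zero_le _)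
  · intro k hk
    rw [HG6b.nrm_mul]
    push_cast
    rfl

open Classical in
theorem ah8_all (Y : ℕ) : ∑ d ∈ BX Y, (1 : ℝ) / (nrm d : ℝ) ^ 2 ≤ 36 := by
  rw [← Finset.sum_filter_add_sum_filter_not (BX Y) (fun d => 1 < nrm d)]
  have h1 := HG6b.tail 1 Y le_rfl
  have h2 : ∑ d ∈ (BX Y).filter (fun d => ¬ 1 < nrm d), (1 : ℝ) / (nrm d : ℝ) ^ 2 ≤ 9 := by
    have h3 : ∀ d ∈ (BX Y).filter (fun d => ¬ 1 < nrm d), (1 : ℝ) / (nrm d : ℝ) ^ 2 ≤ 1 := by
      intro d hd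
      rw [Finset.mem_filter, HG6b.mem_BX] at hd
      have h4 := HG6b.nrm_pos hd.1.1
      have h5 : nrm d = 1 := by omega
      rw [h5]
      norm_num
    refine (Finset.sum_le_card_nsmul _ _ 1 h3).trans ?_
    have h6 : ((BX Y).filter (fun d => ¬ 1 < nrm d)).card ≤ (BX 1).card := by
      apply Finset.card_le_card
      intro d hd
      rw [Finset.mem_filter, HG6b.mem_BX] at hd
      rw [HG6b.mem_BX]
      exact ⟨hd.1.1, by omega⟩
    have h7 := HG6b.card_BX 1 le_rfl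
    rw [nsmul_eq_mul, mul_one]
    have h8 : (((BX Y).filter (fun d => ¬ 1 < nrm d)).card : ℝ) ≤ ((BX 1).card : ℝ) := by
      exact_mod_cast h6
    have h9 : ((BX 1).card : ℝ) ≤ 9 := by
      refine h7.trans (le_of_eq ?_)
      norm_num
    exact h8.trans h9
  have h10 : (27 : ℝ) / ((1 : ℕ) : ℝ) = 27 := by norm_num
  rw [h10] at h1
  linarith

open Classical in
theorem ah8_A (X Y : ℕ) (hX : 1 ≤ X) (k : ZI) (hk : k ≠ 0) :
    (nrm k ≤ X → ∑ d ∈ (BX Y).filter (fun d => X < nrm d * nrm k), (1 : ℝ) / (nrm d : ℝ) ^ 2 ≤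
      54 * nrm k / X) ∧
    ∑ d ∈ (BX Y).filter (fun d => X < nrm d * nrm k), (1 : ℝ) / (nrm d : ℝ) ^ 2 ≤ 36 := by
  have hk0 := HG6b.nrm_pos hk
  constructor
  · intro hkX
    have h1 : 1 ≤ X / nrm k := (Nat.one_le_div_iff hk0).2 hkX
    have h2 : (BX Y).filter (fun d => X < nrm d * nrm k) =
        (BX Y).filter (fun d => X / nrm k < nrm d) := by
      ext d
      rw [Finset.mem_filter, Finset.mem_filter, Nat.div_lt_iff_lt_mul hk0]
    rw [h2]
    refine (HG6b.tail (X / nrm k) Y h1).trans ?_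
    have h3 : X < 2 * (X / nrm k) * nrm k := by
      have h4 := Nat.lt_div_mul_add (a := X) hk0
      nlinarith
    have h5 : (X : ℝ) < 2 * ((X / nrm k : ℕ) : ℝ) * nrm k := by exact_mod_cast h3
    have h6 : (0 : ℝ) < ((X / nrm k : ℕ) : ℝ) := by exact_mod_cast h1
    have h7 : (0 : ℝ) < X := by exact_mod_cast hX
    rw [div_le_div_iff₀ h6 h7]
    nlinarith
  · refine le_trans ?_ (ah8_all Y)
    exact Finset.sum_le_sum_of_subset_of_nonneg (Finset.filter_subset _ _)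
      (fun d _ _ => by positivity)

open Classical in
/-- AH8: a sum over divisors -/
theorem div_sumZ : ∃ C : ℝ, 0 < C ∧ ∀ (K X Y N : ℕ), 1 ≤ K → 1 ≤ X → X ≤ Y →
    ∑ q ∈ (BX Y).filter (fun q => X < nrm q), (1 / (nrm q : ℝ) ^ 2) *
      ∑ d ∈ (BX Y).filter (fun d => d ∣ q ∧ K * nrm d < nrm q), ((N : ℝ) + nrm d) ≤
    C * ((Real.log ((Y : ℝ) / X) + 1) / K + (N : ℝ) * (Real.log X + 1) / X) := by
  obtain ⟨C1, hC1, hcs⟩ := class_sum 1 one_ne_zero
  have hn1 : (nrm (1 : ZI) : ℝ) = 1 := by rw [ah8_nrm_one]; norm_num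
  rw [hn1] at hcs
  simp only [div_one] at hcs
  set D : ℝ := Real.pi + C1 with hD
  have hpi := Real.pi_pos
  have hD0 : 0 < D := by positivity
  refine ⟨27 * D + 54 * (Real.pi * Real.log 2 + D) + 36 * 27, by
    have := Real.log_pos (by norm_num : (1 : ℝ) < 2)
    positivity, ?_⟩
  intro K X Y N hK hX hXY
  have hK0 : (0 : ℝ) < K := by exact_mod_cast hK
  have hX0 : (0 : ℝ) < X := by exact_mod_cast hX
  have hX1 : (1 : ℝ) ≤ X := by exact_mod_cast hX
  have hXY' : (X : ℝ) ≤ Y := by exact_mod_cast hXY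
  have hN0 : (0 : ℝ) ≤ N := Nat.cast_nonneg N
  have hl2 := Real.log_pos (by norm_num : (1 : ℝ) < 2)
  have hL : 0 ≤ Real.log ((Y : ℝ) / X) := Real.log_nonneg ((one_le_div hX0).2 hXY')
  have hLX : 0 ≤ Real.log X := Real.log_nonneg hX1
  -- rewrite the sum
  have e1 : ∑ q ∈ (BX Y).filter (fun q => X < nrm q), (1 / (nrm q : ℝ) ^ 2) *
      ∑ d ∈ (BX Y).filter (fun d => d ∣ q ∧ K * nrm d < nrm q), ((N : ℝ) + nrm d) =
      ∑ k ∈ (BX Y).filter (fun k => K < nrm k),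
        ∑ d ∈ (BX Y).filter (fun d => X < nrm d * nrm k ∧ nrm d * nrm k ≤ Y),
          (1 / ((nrm d : ℝ) * nrm k) ^ 2) * ((N : ℝ) + nrm d) := by
    simp only [Finset.mul_sum]
    rw [Finset.sum_comm' (t' := BX Y) (s' := fun d => (BX Y).filter
      (fun q => X < nrm q ∧ d ∣ q ∧ K * nrm d < nrm q))]
    · rw [Finset.sum_congr rfl fun d hd => ah8_inner K X Y d hd ((N : ℝ) + nrm d)]
      rw [Finset.sum_comm' (t' := (BX Y).filter (fun k => K < nrm k)) (s' := fun k =>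
        (BX Y).filter (fun d => X < nrm d * nrm k ∧ nrm d * nrm k ≤ Y))]
      intro d k
      simp only [Finset.mem_filter]
      tauto
    · intro q d
      simp only [Finset.mem_filter]
      tauto
  rw [e1]
  -- each inner sum
  have e2 : ∀ k ∈ (BX Y).filter (fun k => K < nrm k),
      ∑ d ∈ (BX Y).filter (fun d => X < nrm d * nrm k ∧ nrm d * nrm k ≤ Y),
          (1 / ((nrm d : ℝ) * nrm k) ^ 2) * ((N : ℝ) + nrm d) ≤
      (1 / (nrm k : ℝ) ^ 2) * (D * (Real.log ((Y : ℝ) / X) + 1)) +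
      (N : ℝ) * ((1 / (nrm k : ℝ) ^ 2) *
        ∑ d ∈ (BX Y).filter (fun d => X < nrm d * nrm k), (1 : ℝ) / (nrm d : ℝ) ^ 2) := by
    intro k hk
    rw [Finset.mem_filter, HG6b.mem_BX] at hk
    have hkp : (0 : ℝ) < nrm k := by exact_mod_cast HG6b.nrm_pos hk.1.1
    have h1 : ∑ d ∈ (BX Y).filter (fun d => X < nrm d * nrm k ∧ nrm d * nrm k ≤ Y),
        1 / (nrm d : ℝ) ≤ D * (Real.log ((Y : ℝ) / X) + 1) := by
      have h2 := hcs (X / nrm k) (Y / nrm k) 0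
        ((BX Y).filter (fun d => X < nrm d * nrm k ∧ nrm d * nrm k ≤ Y)) (by positivity)
        (by gcongr) (by
          intro d hd
          rw [Finset.mem_filter, HG6b.mem_BX] at hd
          refine ⟨hd.1.1, one_dvd _, ?_, ?_⟩
          · rw [div_lt_iff₀ hkp]
            exact_mod_cast hd.2.1
          · rw [le_div_iff₀ hkp]
            exact_mod_cast hd.2.2)
      rw [div_div_div_cancel_right₀ hkp.ne'] at h2
      refine h2.trans ?_
      rw [hD]
      nlinarith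
    have h3 : ∑ d ∈ (BX Y).filter (fun d => X < nrm d * nrm k ∧ nrm d * nrm k ≤ Y),
        (1 : ℝ) / (nrm d : ℝ) ^ 2 ≤
        ∑ d ∈ (BX Y).filter (fun d => X < nrm d * nrm k), (1 : ℝ) / (nrm d : ℝ) ^ 2 := by
      refine Finset.sum_le_sum_of_subset_of_nonneg ?_ (fun d _ _ => by positivity)
      intro d hd
      rw [Finset.mem_filter] at hd ⊢
      exact ⟨hd.1, hd.2.1⟩
    have h4 : ∑ d ∈ (BX Y).filter (fun d => X < nrm d * nrm k ∧ nrm d * nrm k ≤ Y),
          (1 / ((nrm d : ℝ) * nrm k) ^ 2) * ((N : ℝ) + nrm d) =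
        (1 / (nrm k : ℝ) ^ 2) * (∑ d ∈ (BX Y).filter
          (fun d => X < nrm d * nrm k ∧ nrm d * nrm k ≤ Y), 1 / (nrm d : ℝ)) +
        (N : ℝ) * ((1 / (nrm k : ℝ) ^ 2) * ∑ d ∈ (BX Y).filter
          (fun d => X < nrm d * nrm k ∧ nrm d * nrm k ≤ Y), (1 : ℝ) / (nrm d : ℝ) ^ 2) := by
      rw [Finset.mul_sum, Finset.mul_sum, Finset.mul_sum, ← Finset.sum_add_distrib]
      refine Finset.sum_congr rfl fun d hd => ?_
      rw [Finset.mem_filter, HG6b.mem_BX] at hd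
      have hdp : (0 : ℝ) < nrm d := by exact_mod_cast HG6b.nrm_pos hd.1.1
      field_simp
      ring
    rw [h4]
    gcongr
  refine (Finset.sum_le_sum e2).trans ?_
  rw [Finset.sum_add_distrib, ← Finset.sum_mul, ← Finset.mul_sum]
  have f1 : (∑ k ∈ (BX Y).filter (fun k => K < nrm k), 1 / (nrm k : ℝ) ^ 2) *
      (D * (Real.log ((Y : ℝ) / X) + 1)) ≤ 27 * D * ((Real.log ((Y : ℝ) / X) + 1) / K) := by
    refine (mul_le_mul_of_nonneg_right (HG6b.tail K Y hK) (by positivity)).trans (le_of_eq ?_)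
    ring
  have f2 : ∑ k ∈ (BX Y).filter (fun k => K < nrm k), (1 / (nrm k : ℝ) ^ 2) *
        ∑ d ∈ (BX Y).filter (fun d => X < nrm d * nrm k), (1 : ℝ) / (nrm d : ℝ) ^ 2 ≤
      (54 * (Real.pi * Real.log 2 + D) + 36 * 27) * ((Real.log X + 1) / X) := by
    have g1 : ∑ k ∈ (BX Y).filter (fun k => K < nrm k), (1 / (nrm k : ℝ) ^ 2) *
        ∑ d ∈ (BX Y).filter (fun d => X < nrm d * nrm k), (1 : ℝ) / (nrm d : ℝ) ^ 2 ≤
        ∑ k ∈ BX Y, (1 / (nrm k : ℝ) ^ 2) *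
        ∑ d ∈ (BX Y).filter (fun d => X < nrm d * nrm k), (1 : ℝ) / (nrm d : ℝ) ^ 2 :=
      Finset.sum_le_sum_of_subset_of_nonneg (Finset.filter_subset _ _)
        (fun d _ _ => mul_nonneg (by positivity) (Finset.sum_nonneg fun _ _ => by positivity))
    refine g1.trans ?_
    rw [← Finset.sum_filter_add_sum_filter_not (BX Y) (fun k => X < nrm k)]
    have g2 : ∑ k ∈ (BX Y).filter (fun k => X < nrm k), (1 / (nrm k : ℝ) ^ 2) *
        ∑ d ∈ (BX Y).filter (fun d => X < nrm d * nrm k), (1 : ℝ) / (nrm d : ℝ) ^ 2 ≤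
        36 * 27 * ((Real.log X + 1) / X) := by
      have g3 : ∀ k ∈ (BX Y).filter (fun k => X < nrm k), (1 / (nrm k : ℝ) ^ 2) *
        ∑ d ∈ (BX Y).filter (fun d => X < nrm d * nrm k), (1 : ℝ) / (nrm d : ℝ) ^ 2 ≤
        (1 / (nrm k : ℝ) ^ 2) * 36 := by
        intro k hk
        rw [Finset.mem_filter, HG6b.mem_BX] at hk
        exact mul_le_mul_of_nonneg_left (ah8_A X Y hX k hk.1.1).2 (by positivity)
      refine (Finset.sum_le_sum g3).trans ?_
      rw [← Finset.sum_mul]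
      refine (mul_le_mul_of_nonneg_right (HG6b.tail X Y hX) (by norm_num)).trans ?_
      rw [show (27 : ℝ) / X * 36 = 36 * 27 * (1 / X) by ring]
      gcongr
      linarith
    have g4 : ∑ k ∈ (BX Y).filter (fun k => ¬ X < nrm k), (1 / (nrm k : ℝ) ^ 2) *
        ∑ d ∈ (BX Y).filter (fun d => X < nrm d * nrm k), (1 : ℝ) / (nrm d : ℝ) ^ 2 ≤
        54 * (Real.pi * Real.log 2 + D) * ((Real.log X + 1) / X) := by
      have g5 : ∀ k ∈ (BX Y).filter (fun k => ¬ X < nrm k), (1 / (nrm k : ℝ) ^ 2) *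
        ∑ d ∈ (BX Y).filter (fun d => X < nrm d * nrm k), (1 : ℝ) / (nrm d : ℝ) ^ 2 ≤
        (54 / X) * (1 / (nrm k : ℝ)) := by
        intro k hk
        rw [Finset.mem_filter, HG6b.mem_BX] at hk
        have hkp : (0 : ℝ) < nrm k := by exact_mod_cast HG6b.nrm_pos hk.1.1
        refine (mul_le_mul_of_nonneg_left ((ah8_A X Y hX k hk.1.1).1 (by omega))
          (by positivity)).trans (le_of_eq ?_)
        field_simp
      refine (Finset.sum_le_sum g5).trans ?_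
      rw [← Finset.mul_sum]
      have g6 := hcs (1 / 2) X 0 ((BX Y).filter (fun k => ¬ X < nrm k)) (by norm_num)
        (by linarith) (by
          intro k hk
          rw [Finset.mem_filter, HG6b.mem_BX] at hk
          have h1 : (1 : ℝ) ≤ nrm k := by exact_mod_cast HG6b.nrm_pos hk.1.1
          refine ⟨hk.1.1, one_dvd _, by linarith, ?_⟩
          have h2 : nrm k ≤ X := by omega
          exact_mod_cast h2)
      have g7 : Real.log ((X : ℝ) / (1 / 2)) = Real.log X + Real.log 2 := by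
        rw [show (X : ℝ) / (1 / 2) = X * 2 by ring, Real.log_mul hX0.ne' (by norm_num)]
      rw [g7] at g6
      have g8 : Real.pi * (Real.log X + Real.log 2) + C1 ≤
          (Real.pi * Real.log 2 + D) * (Real.log X + 1) := by
        rw [hD]
        nlinarith [mul_nonneg (mul_nonneg hpi.le hl2.le) hLX, mul_nonneg hC1.le hLX]
      calc (54 : ℝ) / X * ∑ k ∈ (BX Y).filter (fun k => ¬ X < nrm k), 1 / (nrm k : ℝ)
          ≤ 54 / X * ((Real.pi * Real.log 2 + D) * (Real.log X + 1)) :=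
            mul_le_mul_of_nonneg_left (g6.trans g8) (by positivity)
        _ = _ := by ring
    linarith
  have f3 : (N : ℝ) * ∑ k ∈ (BX Y).filter (fun k => K < nrm k), (1 / (nrm k : ℝ) ^ 2) *
        ∑ d ∈ (BX Y).filter (fun d => X < nrm d * nrm k), (1 : ℝ) / (nrm d : ℝ) ^ 2 ≤
      (54 * (Real.pi * Real.log 2 + D) + 36 * 27) * ((N : ℝ) * (Real.log X + 1) / X) := by
    refine (mul_le_mul_of_nonneg_left f2 hN0).trans (le_of_eq ?_)
    ring
  have f4 : 0 ≤ (Real.log ((Y : ℝ) / X) + 1) / K := by positivity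
  have f5 : 0 ≤ (N : ℝ) * (Real.log X + 1) / X := by positivity
  have f6 : 0 ≤ Real.pi * Real.log 2 := by positivity
  nlinarith [mul_nonneg hD0.le f4, mul_nonneg hD0.le f5, mul_nonneg f6 f4, mul_nonneg f6 f5]

end H385
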