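import Pool.Agent.H385R8.AHDefs
import Pool.Agent.H385R8.AH7
import Pool.Agent.H385R8.AH8

/-!
TEAM Q4, project AH (helper385), task AH9.
-/

open Complex Filter Topology Set MeasureTheory

set_option maxHeartbeats 4000000

namespace H385

open Pool.Agent.H304R3.HK (tc HC CS bb LamK psi bH aH LH Rep)

theorem ah9_cast (a : ZI) : ((nrm a : ℕ) : ℤ) = a.re ^ 2 + a.im ^ 2 := by
  unfold nrm
  rw [Int.natAbs_of_nonneg (Zsqrtd.norm_nonneg (by norm_num) a), Zsqrtd.norm_def]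
  ring

theorem ah9_mem_BX {N : ℕ} {a : ZI} : a ∈ BX N ↔ 1 ≤ nrm a ∧ nrm a ≤ N := by
  unfold BX
  rw [Finset.mem_image]
  have hc := ah9_cast a
  constructor
  · rintro ⟨p, hp, rfl⟩
    rw [Finset.mem_filter] at hp
    obtain ⟨-, h1, h2⟩ := hp
    simp only at hc
    constructor
    · have : (1 : ℤ) ≤ (nrm (⟨p.1, p.2⟩ : ZI) : ℤ) := by rw [hc]; exact h1
      exact_mod_cast this
    · have : (nrm (⟨p.1, p.2⟩ : ZI) : ℤ) ≤ N := by rw [hc]; exact h2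
      exact_mod_cast this
  · rintro ⟨h1, h2⟩
    refine ⟨(a.re, a.im), ?_, rfl⟩
    have h1' : (1 : ℤ) ≤ a.re ^ 2 + a.im ^ 2 := by rw [← hc]; exact_mod_cast h1
    have h2' : a.re ^ 2 + a.im ^ 2 ≤ (N : ℤ) := by rw [← hc]; exact_mod_cast h2
    rw [Finset.mem_filter, Finset.mem_product, Finset.mem_Icc, Finset.mem_Icc]
    refine ⟨⟨⟨?_, ?_⟩, ⟨?_, ?_⟩⟩, h1', h2'⟩ <;> nlinarith [sq_nonneg a.re, sq_nonneg a.im]

theorem ah9_mul (a b : ZI) : nrm (a * b) = nrm a * nrm b := by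
  unfold nrm
  rw [Zsqrtd.norm_mul, Int.natAbs_mul]

theorem ah9_dvd_mem {Y : ℕ} {q d : ZI} (hq : q ∈ BX Y) (hd : d ∣ q) : d ∈ BX Y := by
  rw [ah9_mem_BX] at hq ⊢
  obtain ⟨e, rfl⟩ := hd
  rw [ah9_mul] at hq
  have hd0 : 1 ≤ nrm d := by
    by_contra h
    have h0 : nrm d = 0 := by omega
    rw [h0, zero_mul] at hq
    omega
  have he0 : 1 ≤ nrm e := by
    by_contra h
    have h0 : nrm e = 0 := by omega
    rw [h0, mul_zero] at hq
    omega
  exact ⟨hd0, le_trans (Nat.le_mul_of_pos_right _ he0) hq.2⟩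

theorem ah9_biUnion {ι α : Type*} [DecidableEq α] (s : Finset ι) (t : ι → Finset α) (f : α → ℝ)
    (hf : ∀ x, 0 ≤ f x) : ∑ x ∈ s.biUnion t, f x ≤ ∑ i ∈ s, ∑ x ∈ t i, f x := by
  classical
  induction s using Finset.induction_on with
  | empty => simp
  | insert i s hi ih =>
    rw [Finset.biUnion_insert, Finset.sum_insert hi]
    have h1 := Finset.sum_union_inter (s₁ := t i) (s₂ := s.biUnion t) (f := f)
    have h2 : 0 ≤ ∑ x ∈ t i ∩ s.biUnion t, f x := Finset.sum_nonneg fun x _ => hf x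
    linarith

open Classical in
/-- AH9: characters with small conductor (uses AH7, AH8) -/
theorem small_condZ : ∃ C : ℝ, 0 < C ∧ ∀ (K X Y N : ℕ) (b : ZI → ℂ), 1 ≤ K → 1 ≤ X → X ≤ Y →
    ∑ q ∈ (BX Y).filter (fun q => X < nrm q), (1 / (nrm q : ℝ) ^ 2) *
      ∑ χ ∈ (FQs q).filter (fun χ => ¬ BigC K q χ), ‖SC (BX N) b q χ‖ ^ 2 ≤
    C * ((Real.log ((Y : ℝ) / X) + 1) / K + (N : ℝ) * (Real.log X + 1) / X) *
      ∑ n ∈ BX N, ‖b n‖ ^ 2 := by
  obtain ⟨C1, hC1, h1⟩ := hd_ls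
  obtain ⟨C2, hC2, h2⟩ := div_sumZ
  refine ⟨C1 * C2, mul_pos hC1 hC2, fun K X Y N b hK hX hXY => ?_⟩
  have hB : 0 ≤ ∑ n ∈ BX N, ‖b n‖ ^ 2 := Finset.sum_nonneg fun n _ => sq_nonneg _
  have key : ∀ q ∈ (BX Y).filter (fun q => X < nrm q),
      (1 / (nrm q : ℝ) ^ 2) *
        ∑ χ ∈ (FQs q).filter (fun χ => ¬ BigC K q χ), ‖SC (BX N) b q χ‖ ^ 2 ≤
      ((1 / (nrm q : ℝ) ^ 2) *
        ∑ d ∈ (BX Y).filter (fun d => d ∣ q ∧ K * nrm d < nrm q), ((N : ℝ) + nrm d)) *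
        (C1 * ∑ n ∈ BX N, ‖b n‖ ^ 2) := by
    intro q hq
    rw [Finset.mem_filter] at hq
    obtain ⟨hqY, -⟩ := hq
    have hq0 : q ≠ 0 := by
      rintro rfl
      have h := (ah9_mem_BX.1 hqY).1
      have h0 : nrm (0 : ZI) = 0 := by
        unfold nrm
        rw [Zsqrtd.norm_zero]
        rfl
      omega
    rw [mul_assoc]
    refine mul_le_mul_of_nonneg_left ?_ (by positivity)
    rw [Finset.sum_mul]
    have hsub : (FQs q).filter (fun χ => ¬ BigC K q χ) ⊆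
        ((BX Y).filter (fun d => d ∣ q ∧ K * nrm d < nrm q)).biUnion (fun d =>
          (FQs q).filter (fun χ => ∀ u : ZI, IsCoprime u q → d ∣ u - 1 → chiZ q χ u = 1)) := by
      intro χ hχ
      rw [Finset.mem_filter] at hχ
      obtain ⟨hχ1, hχ2⟩ := hχ
      unfold BigC at hχ2
      push Not at hχ2
      obtain ⟨d, hd1, hd2, hd3⟩ := hχ2
      rw [Finset.mem_biUnion]
      refine ⟨d, ?_, ?_⟩
      · rw [Finset.mem_filter]
        exact ⟨ah9_dvd_mem hqY hd1, hd1, hd2⟩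
      · rw [Finset.mem_filter]
        exact ⟨hχ1, hd3⟩
    refine (Finset.sum_le_sum_of_subset_of_nonneg hsub fun χ _ _ => sq_nonneg _).trans ?_
    refine (ah9_biUnion _ _ _ fun χ => sq_nonneg _).trans ?_
    refine Finset.sum_le_sum fun d hd => ?_
    rw [Finset.mem_filter] at hd
    refine (h1 q d N b hq0 hd.2.1).trans (le_of_eq ?_)
    ring
  refine (Finset.sum_le_sum key).trans ?_
  rw [← Finset.sum_mul]
  refine (mul_le_mul_of_nonneg_right (h2 K X Y N hK hX hXY) (mul_nonneg hC1.le hB)).trans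
    (le_of_eq ?_)
  ring

end H385
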