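import Pool.Agent.H385R8.AHDefs
import Pool.Agent.H385R8.AH1

/-!
TEAM Q4, project AH (helper385), task AH2 (helper532).
-/

open Complex Filter Topology Set MeasureTheory

set_option maxHeartbeats 4000000

namespace H385

open Pool.Agent.H304R3.HK (tc HC CS bb LamK psi bH aH LH Rep)

namespace AH2

section gen

variable {ι : Type*}

theorem inner_integrable (s : Finset ι) (w : ι → ℝ) (F : ι → ℝ → ℝ)
    (hF : ∀ i ∈ s, Integrable (F i)) (t : ℝ) :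
    Integrable (fun t' : ℝ => ∑ i ∈ s, w i * (F i t * F i t')) :=
  integrable_finsetSum _ (fun i hi => ((hF i hi).const_mul _).const_mul _)

theorem inner_int (s : Finset ι) (w : ι → ℝ) (F : ι → ℝ → ℝ)
    (hF : ∀ i ∈ s, Integrable (F i)) (t : ℝ) :
    ∫ t' : ℝ, ∑ i ∈ s, w i * (F i t * F i t') = ∑ i ∈ s, w i * (F i t * ∫ t' : ℝ, F i t') := by
  rw [integral_finsetSum _ (fun i hi => ((hF i hi).const_mul _).const_mul _)]
  refine Finset.sum_congr rfl (fun i hi => ?_)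
  rw [integral_const_mul, integral_const_mul]

theorem outer_integrable (s : Finset ι) (w : ι → ℝ) (F : ι → ℝ → ℝ)
    (hF : ∀ i ∈ s, Integrable (F i)) :
    Integrable (fun t : ℝ => ∑ i ∈ s, w i * (F i t * ∫ t' : ℝ, F i t')) :=
  integrable_finsetSum _ (fun i hi => ((hF i hi).mul_const _).const_mul _)

theorem outer_int (s : Finset ι) (w : ι → ℝ) (F : ι → ℝ → ℝ)
    (hF : ∀ i ∈ s, Integrable (F i)) :
    ∫ t : ℝ, ∑ i ∈ s, w i * (F i t * ∫ t' : ℝ, F i t') = ∑ i ∈ s, w i * (∫ t : ℝ, F i t) ^ 2 := by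
  rw [integral_finsetSum _ (fun i hi => ((hF i hi).mul_const _).const_mul _)]
  refine Finset.sum_congr rfl (fun i hi => ?_)
  rw [integral_const_mul, integral_mul_const]
  ring

/-- complex version with two families -/
theorem innerC_int (s : Finset ι) (g h : ι → ℝ → ℂ) (hh : ∀ i ∈ s, Integrable (h i)) (t : ℝ) :
    ∫ t' : ℝ, ∑ i ∈ s, g i t * h i t' = ∑ i ∈ s, g i t * ∫ t' : ℝ, h i t' := by
  rw [integral_finsetSum _ (fun i hi => (hh i hi).const_mul _)]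
  refine Finset.sum_congr rfl (fun i hi => ?_)
  rw [integral_const_mul]

theorem innerC_integrable (s : Finset ι) (g h : ι → ℝ → ℂ) (hh : ∀ i ∈ s, Integrable (h i))
    (t : ℝ) : Integrable (fun t' : ℝ => ∑ i ∈ s, g i t * h i t') :=
  integrable_finsetSum _ (fun i hi => (hh i hi).const_mul _)

theorem outerC_integrable (s : Finset ι) (g h : ι → ℝ → ℂ) (hg : ∀ i ∈ s, Integrable (g i)) :
    Integrable (fun t : ℝ => ∑ i ∈ s, g i t * ∫ t' : ℝ, h i t') :=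
  integrable_finsetSum _ (fun i hi => (hg i hi).mul_const _)

theorem outerC_int (s : Finset ι) (g h : ι → ℝ → ℂ) (hg : ∀ i ∈ s, Integrable (g i)) :
    ∫ t : ℝ, ∑ i ∈ s, g i t * ∫ t' : ℝ, h i t' =
      ∑ i ∈ s, (∫ t : ℝ, g i t) * ∫ t' : ℝ, h i t' := by
  rw [integral_finsetSum _ (fun i hi => (hg i hi).mul_const _)]
  refine Finset.sum_congr rfl (fun i hi => ?_)
  rw [integral_mul_const]

end gen

section coef

variable {κ : Type} (s : Finset κ) {a : ℝ → κ → ℂ}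

theorem integrable_prod (hc : ∀ n, Continuous (fun t => a t n))
    (hi : ∀ n, Integrable (fun t => ‖a t n‖ ^ 2)) (n m : κ) :
    Integrable (fun t : ℝ => a t n * (starRingEnd ℂ) (a t m)) := by
  refine Integrable.mono' ((hi n).add (hi m)) ?_ ?_
  · exact ((hc n).mul (continuous_conj.comp (hc m))).aestronglyMeasurable
  · refine Filter.Eventually.of_forall (fun t => ?_)
    rw [norm_mul, RCLike.norm_conj]
    show ‖a t n‖ * ‖a t m‖ ≤ ‖a t n‖ ^ 2 + ‖a t m‖ ^ 2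
    nlinarith [sq_nonneg (‖a t n‖ - ‖a t m‖), sq_nonneg ‖a t n‖, sq_nonneg ‖a t m‖]

theorem integrable_sum_sq (hi : ∀ n, Integrable (fun t => ‖a t n‖ ^ 2)) :
    Integrable (fun t : ℝ => ∑ n ∈ s, ‖a t n‖ ^ 2) :=
  integrable_finsetSum _ (fun n _ => hi n)

theorem integrable_S (hc : ∀ n, Continuous (fun t => a t n))
    (hi : ∀ n, Integrable (fun t => ‖a t n‖ ^ 2)) (c : κ → ℂ) :
    Integrable (fun t : ℝ => ‖∑ n ∈ s, a t n * c n‖ ^ 2) := by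
  refine Integrable.mono' ((integrable_sum_sq s hi).mul_const (∑ n ∈ s, ‖c n‖ ^ 2)) ?_ ?_
  · have h1 : Continuous (fun t : ℝ => ∑ n ∈ s, a t n * c n) :=
      continuous_finsetSum _ (fun n _ => (hc n).mul continuous_const)
    exact (h1.norm.pow 2).aestronglyMeasurable
  · refine Filter.Eventually.of_forall (fun t => ?_)
    rw [Real.norm_of_nonneg (by positivity)]
    have h1 : ‖∑ n ∈ s, a t n * c n‖ ≤ ∑ n ∈ s, ‖a t n‖ * ‖c n‖ := by
      refine (norm_sum_le _ _).trans (Finset.sum_le_sum (fun n _ => ?_))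
      rw [norm_mul]
    have h2 : (∑ n ∈ s, ‖a t n‖ * ‖c n‖) ^ 2 ≤
        (∑ n ∈ s, ‖a t n‖ ^ 2) * ∑ n ∈ s, ‖c n‖ ^ 2 := Finset.sum_mul_sq_le_sq_mul_sq _ _ _
    exact (pow_le_pow_left₀ (norm_nonneg _) h1 2).trans h2

/-- the cross term -/
theorem cross_eq (t t' : ℝ) :
    ((‖∑ n ∈ s, a t n * (starRingEnd ℂ) (a t' n)‖ ^ 2 : ℝ) : ℂ) =
      ∑ x ∈ s ×ˢ s,
        (a t x.1 * (starRingEnd ℂ) (a t x.2)) * (a t' x.2 * (starRingEnd ℂ) (a t' x.1)) := by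
  have h : ∀ z : ℂ, ((‖z‖ ^ 2 : ℝ) : ℂ) = z * (starRingEnd ℂ) z := by
    intro z
    rw [RCLike.mul_conj]
    push_cast
    rfl
  rw [h, map_sum, Finset.sum_mul_sum, Finset.sum_product]
  refine Finset.sum_congr rfl (fun n _ => Finset.sum_congr rfl (fun m _ => ?_))
  rw [map_mul, Complex.conj_conj]
  ring

theorem cross_inner (hc : ∀ n, Continuous (fun t => a t n))
    (hi : ∀ n, Integrable (fun t => ‖a t n‖ ^ 2)) (t : ℝ) :
    ((∫ t' : ℝ, ‖∑ n ∈ s, a t n * (starRingEnd ℂ) (a t' n)‖ ^ 2 : ℝ) : ℂ) =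
      ∑ x ∈ s ×ˢ s,
        (a t x.1 * (starRingEnd ℂ) (a t x.2)) *
          ∫ t' : ℝ, (a t' x.2 * (starRingEnd ℂ) (a t' x.1)) := by
  rw [← integral_complex_ofReal]
  simp_rw [cross_eq]
  exact innerC_int _ (fun (x : κ × κ) t => a t x.1 * (starRingEnd ℂ) (a t x.2))
    (fun (x : κ × κ) t' => a t' x.2 * (starRingEnd ℂ) (a t' x.1))
    (fun (x : κ × κ) _ => integrable_prod hc hi x.2 x.1) t

theorem cross_inner_integrable (hc : ∀ n, Continuous (fun t => a t n))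
    (hi : ∀ n, Integrable (fun t => ‖a t n‖ ^ 2)) (t : ℝ) :
    Integrable (fun t' : ℝ => ‖∑ n ∈ s, a t n * (starRingEnd ℂ) (a t' n)‖ ^ 2) := by
  have h1 := innerC_integrable (s ×ˢ s)
    (fun (x : κ × κ) t => a t x.1 * (starRingEnd ℂ) (a t x.2))
    (fun (x : κ × κ) t' => a t' x.2 * (starRingEnd ℂ) (a t' x.1))
    (fun (x : κ × κ) _ => integrable_prod hc hi x.2 x.1) t
  have h2 := h1.re
  refine h2.congr (Filter.Eventually.of_forall (fun t' => ?_))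
  show RCLike.re _ = _
  rw [← cross_eq]
  exact Complex.ofReal_re _

theorem cross_outer_integrable (hc : ∀ n, Continuous (fun t => a t n))
    (hi : ∀ n, Integrable (fun t => ‖a t n‖ ^ 2)) :
    Integrable (fun t : ℝ =>
      ∫ t' : ℝ, ‖∑ n ∈ s, a t n * (starRingEnd ℂ) (a t' n)‖ ^ 2) := by
  have h1 := outerC_integrable (s ×ˢ s)
    (fun (x : κ × κ) t => a t x.1 * (starRingEnd ℂ) (a t x.2))
    (fun (x : κ × κ) t' => a t' x.2 * (starRingEnd ℂ) (a t' x.1))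
    (fun (x : κ × κ) _ => integrable_prod hc hi x.1 x.2)
  have h2 := h1.re
  refine h2.congr (Filter.Eventually.of_forall (fun t => ?_))
  show RCLike.re _ = _
  rw [← cross_inner s hc hi]
  exact Complex.ofReal_re _

theorem cross_outer (hc : ∀ n, Continuous (fun t => a t n))
    (hi : ∀ n, Integrable (fun t => ‖a t n‖ ^ 2)) :
    (∫ t : ℝ, ∫ t' : ℝ, ‖∑ n ∈ s, a t n * (starRingEnd ℂ) (a t' n)‖ ^ 2) =
      ∑ n ∈ s, ∑ m ∈ s,
        ‖∫ t : ℝ, a t n * (starRingEnd ℂ) (a t m)‖ ^ 2 := by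
  apply Complex.ofReal_injective
  rw [← integral_complex_ofReal]
  simp_rw [cross_inner s hc hi]
  rw [outerC_int (s ×ˢ s)
    (fun (x : κ × κ) t => a t x.1 * (starRingEnd ℂ) (a t x.2))
    (fun (x : κ × κ) t' => a t' x.2 * (starRingEnd ℂ) (a t' x.1))
    (fun (x : κ × κ) _ => integrable_prod hc hi x.1 x.2), Finset.sum_product]
  push_cast
  refine Finset.sum_congr rfl (fun n _ => Finset.sum_congr rfl (fun m _ => ?_))
  have h1 : ∫ t' : ℝ, (a t' m * (starRingEnd ℂ) (a t' n)) =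
      (starRingEnd ℂ) (∫ t : ℝ, a t n * (starRingEnd ℂ) (a t m)) := by
    rw [← integral_conj]
    congr 1
    ext t
    rw [map_mul, Complex.conj_conj, mul_comm]
  show (∫ t : ℝ, a t n * (starRingEnd ℂ) (a t m)) * ∫ t' : ℝ, (a t' m * (starRingEnd ℂ) (a t' n)) = _
  rw [h1, RCLike.mul_conj]
  rfl

end coef

/-- integration of the pointwise inequality -/
theorem step {ι : Type} (s : Finset ι) (w : ι → ℝ) (F : ι → ℝ → ℝ)
    (hFi : ∀ i ∈ s, Integrable (F i)) (A : ℝ → ℝ) (B : ℝ → ℝ → ℝ) (hAi : Integrable A)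
    (hBi : ∀ t, Integrable (B t)) (hBo : Integrable (fun t => ∫ t' : ℝ, B t t')) (K : ℝ)
    (key : ∀ t t' : ℝ, ∑ p ∈ s, w p * (F p t * F p t') ≤ K * (A t * A t' + B t t')) :
    ∑ p ∈ s, w p * (∫ t : ℝ, F p t) ^ 2 ≤
      K * ((∫ t : ℝ, A t) ^ 2 + ∫ t : ℝ, ∫ t' : ℝ, B t t') := by
  have i1 : ∀ t, ∑ p ∈ s, w p * (F p t * ∫ t' : ℝ, F p t') ≤
      K * (A t * (∫ t' : ℝ, A t') + ∫ t' : ℝ, B t t') := by
    intro t
    rw [← inner_int s w F hFi t]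
    have e : K * (A t * (∫ t' : ℝ, A t') + ∫ t' : ℝ, B t t') =
        ∫ t' : ℝ, K * (A t * A t' + B t t') := by
      rw [integral_const_mul, integral_add (hAi.const_mul _) (hBi t), integral_const_mul]
    rw [e]
    exact integral_mono (inner_integrable s w F hFi t)
      (((hAi.const_mul _).add (hBi t)).const_mul _) (fun t' => key t t')
  rw [← outer_int s w F hFi]
  have e : K * ((∫ t : ℝ, A t) ^ 2 + ∫ t : ℝ, ∫ t' : ℝ, B t t') =
      ∫ t : ℝ, K * (A t * (∫ t' : ℝ, A t') + ∫ t' : ℝ, B t t') := by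
    rw [integral_const_mul, integral_add (hAi.mul_const _) hBo, integral_mul_const, sq]
  rw [e]
  exact integral_mono (outer_integrable s w F hFi)
    (((hAi.mul_const _).add hBo).const_mul _) (fun t => i1 t)

theorem nrm_mul (a b : ZI) : nrm (a * b) = nrm a * nrm b := by
  unfold nrm; rw [Zsqrtd.norm_mul, Int.natAbs_mul]

theorem mem_BX (N : ℕ) (a : ZI) : a ∈ BX N ↔ 1 ≤ nrm a ∧ nrm a ≤ N := by
  have hn : (nrm a : ℤ) = a.re ^ 2 + a.im ^ 2 := by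
    unfold nrm
    rw [Int.natCast_natAbs, abs_of_nonneg (GaussianInt.norm_nonneg a), Zsqrtd.norm_def]; ring
  unfold BX
  simp only [Finset.mem_image, Finset.mem_filter, Finset.mem_product, Finset.mem_Icc, Prod.exists]
  constructor
  · rintro ⟨x, y, ⟨_, h1, h2⟩, rfl⟩
    simp only at hn
    constructor
    · have : (1 : ℤ) ≤ (nrm ⟨x, y⟩ : ℤ) := by rw [hn]; exact h1
      exact_mod_cast this
    · have : (nrm ⟨x, y⟩ : ℤ) ≤ N := by rw [hn]; exact h2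
      exact_mod_cast this
  · rintro ⟨h1, h2⟩
    have h1' : (1 : ℤ) ≤ a.re ^ 2 + a.im ^ 2 := by rw [← hn]; exact_mod_cast h1
    have h2' : a.re ^ 2 + a.im ^ 2 ≤ (N : ℤ) := by rw [← hn]; exact_mod_cast h2
    have hsq : ∀ z : ℤ, z ^ 2 ≤ N → -(N : ℤ) ≤ z ∧ z ≤ N := by
      intro z hz
      have hz0 : |z| ≤ z ^ 2 := by
        rcases eq_or_ne z 0 with rfl | h
        · simp
        · have := Int.one_le_abs h
          nlinarith [sq_abs z]
      exact abs_le.mp (hz0.trans hz)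
    exact ⟨a.re, a.im, ⟨⟨hsq _ (by nlinarith [sq_nonneg a.im]),
      hsq _ (by nlinarith [sq_nonneg a.re])⟩, h1', h2'⟩, rfl⟩

/-- the product of two prime sums as one sum -/
theorem prod_eq (N : ℕ) (q : ZI) (χ : MulChar (RQ q) ℂ) (a b : ZI → ℂ) :
    SC (BX N) a q χ * SC (BX N) b q χ =
    SC (BX (N ^ 2)) (fun k => ∑ n ∈ BX N, ∑ m ∈ BX N,
        (if n * m = k then a n * b m else 0)) q χ := by
  unfold SC
  have h1 : ∀ k ∈ BX (N ^ 2), (∑ n ∈ BX N, ∑ m ∈ BX N,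
        (if n * m = k then a n * b m else 0)) * chiZ q χ k =
      ∑ n ∈ BX N, ∑ m ∈ BX N,
        (if n * m = k then a n * b m * chiZ q χ k else 0) := by
    intro k _
    rw [Finset.sum_mul]
    refine Finset.sum_congr rfl (fun n _ => ?_)
    rw [Finset.sum_mul]
    refine Finset.sum_congr rfl (fun m _ => ?_)
    split_ifs
    · rfl
    · rw [zero_mul]
  rw [Finset.sum_congr rfl h1, Finset.sum_comm, Finset.sum_mul_sum]
  refine Finset.sum_congr rfl (fun n hn => ?_)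
  rw [Finset.sum_comm]
  refine Finset.sum_congr rfl (fun m hm => ?_)
  rw [Finset.sum_ite_eq, if_pos]
  · rw [map_mul]
    ring
  · rw [mem_BX] at hn hm ⊢
    rw [nrm_mul]
    constructor
    · exact Nat.succ_le_of_lt (Nat.mul_pos hn.1 hm.1)
    · rw [sq]
      exact Nat.mul_le_mul hn.2 hm.2

end AH2

/-- AH2: the fourth moment (uses AH1) -/
theorem fourthZ {ι : Type} (s : Finset ι) (ω : ι → ℝ) (hω : ∀ i ∈ s, 0 ≤ ω i) (qq : ι → ZI)
    (χ : (i : ι) → MulChar (RQ (qq i)) ℂ) (N : ℕ) (Δ : ℝ) (hΔ : 0 ≤ Δ)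
    (hls : ∀ b : ZI → ℂ, ∑ i ∈ s, ω i * ‖SC (BX (N ^ 2)) b (qq i) (χ i)‖ ^ 2 ≤
      4 * Δ * ∑ n ∈ BX (N ^ 2), ‖b n‖ ^ 2)
    (v : ℝ → ZI → ℂ) (hv : ∀ t a, ¬ (nrm a).Prime → v t a = 0) (hv1 : ∀ t, Eqv (v t))
    (hc : ∀ a, Continuous (fun t => v t a)) (hi : ∀ a, Integrable (fun t => ‖v t a‖ ^ 2)) :
    ∑ i ∈ s, ω i * (∫ t : ℝ, ‖(1 / 4 : ℂ) * SC (BX N) (v t) (qq i) (χ i)‖ ^ 2) ^ 2 ≤
      Δ * ((∫ t : ℝ, (1 / 4 : ℝ) * ∑ a ∈ BX N, ‖v t a‖ ^ 2) ^ 2 +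
        (1 / 16 : ℝ) * ∑ a ∈ BX N, ∑ c ∈ BX N, ‖∫ t : ℝ, v t a * (starRingEnd ℂ) (v t c)‖ ^ 2) := by
  set F : ι → ℝ → ℝ := fun i t => ‖(1 / 4 : ℂ) * SC (BX N) (v t) (qq i) (χ i)‖ ^ 2 with hF
  have hFe : ∀ i t, F i t = (1 / 16 : ℝ) * ‖SC (BX N) (v t) (qq i) (χ i)‖ ^ 2 := by
    intro i t
    show ‖(1 / 4 : ℂ) * SC (BX N) (v t) (qq i) (χ i)‖ ^ 2 = _
    rw [norm_mul, mul_pow]
    congr 1
    norm_num
  have hFi : ∀ i ∈ s, Integrable (F i) := by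
    intro i _
    have h1 := (AH2.integrable_S (BX N) hc hi (fun n => chiZ (qq i) (χ i) n)).const_mul (1 / 16 : ℝ)
    refine h1.congr (Filter.Eventually.of_forall (fun t => ?_))
    show (1 / 16 : ℝ) * ‖∑ n ∈ BX N, v t n * chiZ (qq i) (χ i) n‖ ^ 2 = F i t
    rw [hFe]; rfl
  set A : ℝ → ℝ := fun t => (1 / 4 : ℝ) * ∑ a ∈ BX N, ‖v t a‖ ^ 2 with hA
  set B : ℝ → ℝ → ℝ := fun t t' => (1 / 16 : ℝ) *
    ‖∑ n ∈ BX N, v t n * (starRingEnd ℂ) (v t' n)‖ ^ 2 with hB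
  have hAi : Integrable A := (AH2.integrable_sum_sq (BX N) hi).const_mul _
  have hBi : ∀ t, Integrable (B t) := fun t =>
    (AH2.cross_inner_integrable (BX N) hc hi t).const_mul _
  have hBe : ∀ t, ∫ t' : ℝ, B t t' = (1 / 16 : ℝ) *
      ∫ t' : ℝ, ‖∑ n ∈ BX N, v t n * (starRingEnd ℂ) (v t' n)‖ ^ 2 := fun t => integral_const_mul _ _
  have hBo : Integrable (fun t => ∫ t' : ℝ, B t t') := by
    simp_rw [hBe]
    exact (AH2.cross_outer_integrable (BX N) hc hi).const_mul _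
  -- pointwise
  have key : ∀ t t' : ℝ, ∑ p ∈ s, ω p * (F p t * F p t') ≤ Δ * (A t * A t' + B t t') := by
    intro t t'
    set c : ZI → ℂ := fun k => ∑ n ∈ BX N, ∑ m ∈ BX N,
        (if n * m = k then v t n * v t' m else 0) with hcdef
    have h2 := hls c
    have h3 : ∑ p ∈ s, ω p * (F p t * F p t') =
        (1 / 256 : ℝ) * ∑ p ∈ s, ω p * ‖SC (BX (N ^ 2)) c (qq p) (χ p)‖ ^ 2 := by
      rw [Finset.mul_sum]
      refine Finset.sum_congr rfl (fun p _ => ?_)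
      rw [hFe, hFe, hcdef, ← AH2.prod_eq, norm_mul]
      ring
    rw [h3]
    have h4 := prime_prodZ N (v t) (v t') (hv t) (hv t') (hv1 t) (hv1 t')
    have h5 : ∑ n ∈ BX (N ^ 2), ‖c n‖ ^ 2 ≤ 4 * ((∑ a ∈ BX N, ‖v t a‖ ^ 2) *
        (∑ a ∈ BX N, ‖v t' a‖ ^ 2) + ‖∑ a ∈ BX N, v t a * (starRingEnd ℂ) (v t' a)‖ ^ 2) := h4
    have h6 := mul_le_mul_of_nonneg_left h5 hΔ
    show _ ≤ Δ * ((1 / 4 : ℝ) * (∑ a ∈ BX N, ‖v t a‖ ^ 2) * ((1 / 4 : ℝ) *
      ∑ a ∈ BX N, ‖v t' a‖ ^ 2) + (1 / 16 : ℝ) *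
      ‖∑ n ∈ BX N, v t n * (starRingEnd ℂ) (v t' n)‖ ^ 2)
    have h7 : (1 / 256 : ℝ) * ∑ p ∈ s, ω p * ‖SC (BX (N ^ 2)) c (qq p) (χ p)‖ ^ 2 ≤
        (1 / 256 : ℝ) * (4 * Δ * ∑ n ∈ BX (N ^ 2), ‖c n‖ ^ 2) := by linarith
    refine h7.trans ?_
    nlinarith [h6]
  -- integrate
  have i2 := AH2.step s ω F hFi A B hAi hBi hBo Δ key
  have i3 : ∫ t : ℝ, ∫ t' : ℝ, B t t' = (1 / 16 : ℝ) * ∑ n ∈ BX N, ∑ m ∈ BX N,
        ‖∫ t : ℝ, v t n * (starRingEnd ℂ) (v t m)‖ ^ 2 := by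
    simp_rw [hBe]
    rw [integral_const_mul, AH2.cross_outer (BX N) hc hi]
  rw [i3] at i2
  exact i2

end H385
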