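import Pool.Agent.H385R8.AHDefs
import Pool.Agent.H385R8.AH3

/-!
TEAM Q4, project AH (helper385), task AH4 (author helper234).
-/

open Complex Filter Topology Set MeasureTheory

set_option maxHeartbeats 4000000

namespace H385

open Pool.Agent.H304R3.HK (tc HC CS bb LamK psi bH aH LH Rep)

open Classical in
/-- the coefficient of `wQ` -/
noncomputable def ah4_k (a : ZI) : ℂ :=
  if (nrm a).Prime then (LamK a : ℂ) * (tc a / (‖tc a‖ : ℂ)) else 0

theorem ah4_wQ (b : ℕ → ℂ) (a : ZI) : wQ b a = ah4_k a * b (nrm a) := by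
  classical
  unfold wQ ah4_k wZ
  split_ifs with h1 h2
  · rfl
  · exact absurd isCoprime_one_right h2
  · rw [zero_mul]

theorem ah4_norm (a : ZI) (h : (nrm a).Prime) :
    ‖ah4_k a‖ = ArithmeticFunction.vonMangoldt (nrm a) := by
  have h1 := (wq_props (fun _ => 1)).2.2.1 a h
  rw [ah4_wQ] at h1
  simpa using h1

theorem ah4_zero (a : ZI) (h : ¬ (nrm a).Prime) : ah4_k a = 0 := by
  unfold ah4_k; rw [if_neg h]

/-- one entry of the Gram matrix -/
theorem ah4_entry (T u : ℝ) (a c : ZI) (ha : (nrm a).Prime) (hc : (nrm c).Prime) :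
    ‖∫ t : ℝ, wQ (bn T u t) a * (starRingEnd ℂ) (wQ (bn T u t) c)‖ =
    ‖∫ t : ℝ, cpr 1 T u t (nrm a) * (starRingEnd ℂ) (cpr 1 T u t (nrm c))‖ := by
  have e1 : ∀ t : ℝ, wQ (bn T u t) a * (starRingEnd ℂ) (wQ (bn T u t) c) =
      (ah4_k a * (starRingEnd ℂ) (ah4_k c)) *
        (bn T u t (nrm a) * (starRingEnd ℂ) (bn T u t (nrm c))) := by
    intro t
    rw [ah4_wQ, ah4_wQ, map_mul]; ring
  have e2 : ∀ t : ℝ, cpr 1 T u t (nrm a) * (starRingEnd ℂ) (cpr 1 T u t (nrm c)) =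
      ((ArithmeticFunction.vonMangoldt (nrm a) : ℂ) *
        (ArithmeticFunction.vonMangoldt (nrm c) : ℂ)) *
        (bn T u t (nrm a) * (starRingEnd ℂ) (bn T u t (nrm c))) := by
    intro t
    unfold cpr
    rw [if_pos ⟨ha, Nat.coprime_one_right _⟩, if_pos ⟨hc, Nat.coprime_one_right _⟩, map_mul,
      Complex.conj_ofReal]; ring
  simp only [e1, e2]
  rw [integral_const_mul, integral_const_mul, norm_mul, norm_mul]
  congr 1
  rw [norm_mul, norm_mul, RCLike.norm_conj, ah4_norm a ha, ah4_norm c hc, Complex.norm_real,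
    Complex.norm_real, Real.norm_of_nonneg ArithmeticFunction.vonMangoldt_nonneg,
    Real.norm_of_nonneg ArithmeticFunction.vonMangoldt_nonneg]

open Classical in
/-- the number of elements of given prime norm -/
theorem ah4_card (N n : ℕ) (hn : n.Prime) : ((BX N).filter (fun a => nrm a = n)).card ≤ 8 := by
  have h := ((wq_props (fun _ => 1)).2.2.2.2 n).resolve_right (not_not.2 hn)
  refine le_trans (Finset.card_le_card ?_) h
  intro a ha
  rw [Finset.mem_filter] at ha ⊢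
  refine ⟨?_, ha.2⟩
  rw [HE4.mem_BX] at ha ⊢
  exact ⟨ha.1.1, ha.2.le⟩

/-- summation over the norm -/
theorem ah4_sum (N : ℕ) (G : ℕ → ℝ) (hG : ∀ n, 0 ≤ G n) (f : ZI → ℝ)
    (hf : ∀ a, (nrm a).Prime → f a = G (nrm a)) (hf0 : ∀ a, ¬ (nrm a).Prime → f a = 0) :
    ∑ a ∈ BX N, f a ≤ 8 * ∑ n ∈ Finset.Icc 1 N, G n := by
  classical
  have hmaps : ∀ a ∈ BX N, nrm a ∈ Finset.Icc 1 N := fun a ha => by
    rw [HE4.mem_BX] at ha
    exact Finset.mem_Icc.2 ha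
  rw [← Finset.sum_fiberwise_of_maps_to hmaps, Finset.mul_sum]
  refine Finset.sum_le_sum fun n _ => ?_
  by_cases hn : n.Prime
  · have e : ∑ a ∈ (BX N).filter (fun a => nrm a = n), f a =
        ∑ a ∈ (BX N).filter (fun a => nrm a = n), G n := by
      refine Finset.sum_congr rfl fun a ha => ?_
      have h := (Finset.mem_filter.1 ha).2
      rw [hf a (h ▸ hn), h]
    rw [e, Finset.sum_const, nsmul_eq_mul]
    have h8 : (((BX N).filter (fun a => nrm a = n)).card : ℝ) ≤ 8 := by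
      exact_mod_cast ah4_card N n hn
    exact mul_le_mul_of_nonneg_right h8 (hG n)
  · have e : ∑ a ∈ (BX N).filter (fun a => nrm a = n), f a = 0 := by
      refine Finset.sum_eq_zero fun a ha => ?_
      have h := (Finset.mem_filter.1 ha).2
      exact hf0 a (h ▸ hn)
    rw [e]
    exact mul_nonneg (by norm_num) (hG n)

/-- AH4: the Gram matrix (from `cpr_gram`) -/
theorem gramZ : ∃ C : ℝ, 0 < C ∧ ∀ (N : ℕ) (T κ u : ℝ), 1 ≤ κ → κ ≤ T → 1 ≤ T →
    T ≤ Real.exp (κ ^ 2) → 0 ≤ u → RQM N T u ≤ C * (T ^ 2 + T * (u + 1) ^ 5) := by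
  obtain ⟨C, hC, h⟩ := cpr_gram
  refine ⟨4 * C, by positivity, fun N T κ u hκ hκT hT hTκ hu => ?_⟩
  have h1 := h 1 N T κ u hκ hκT hT hTκ hu
  set g : ℕ → ℕ → ℝ := fun n m =>
    ‖∫ t : ℝ, cpr 1 T u t n * (starRingEnd ℂ) (cpr 1 T u t m)‖ ^ 2 with hg
  have hg0 : ∀ n m, 0 ≤ g n m := fun n m => by simp only [hg]; positivity
  have hcpr : ∀ t n, ¬ n.Prime → cpr 1 T u t n = 0 := by
    intro t n hn
    unfold cpr
    rw [if_neg (fun h => hn h.1)]
  have hin : ∀ a : ZI, (nrm a).Prime →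
      ∑ c ∈ BX N, ‖∫ t : ℝ, wQ (bn T u t) a * (starRingEnd ℂ) (wQ (bn T u t) c)‖ ^ 2 ≤
        8 * ∑ m ∈ Finset.Icc 1 N, g (nrm a) m := by
    intro a ha
    refine ah4_sum N (g (nrm a)) (hg0 _) _ (fun c hc => ?_) (fun c hc => ?_)
    · rw [ah4_entry T u a c ha hc]
    · have : ∀ t : ℝ, wQ (bn T u t) a * (starRingEnd ℂ) (wQ (bn T u t) c) = 0 := by
        intro t
        rw [ah4_wQ _ c, ah4_zero c hc, zero_mul, map_zero, mul_zero]
      simp only [this, integral_zero, norm_zero]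
      norm_num
  have hout : ∑ a ∈ BX N, ∑ c ∈ BX N,
      ‖∫ t : ℝ, wQ (bn T u t) a * (starRingEnd ℂ) (wQ (bn T u t) c)‖ ^ 2 ≤
      8 * ∑ n ∈ Finset.Icc 1 N, (8 * ∑ m ∈ Finset.Icc 1 N, g n m) := by
    classical
    have hle : ∀ a ∈ BX N, ∑ c ∈ BX N,
        ‖∫ t : ℝ, wQ (bn T u t) a * (starRingEnd ℂ) (wQ (bn T u t) c)‖ ^ 2 ≤
        (if (nrm a).Prime then 8 * ∑ m ∈ Finset.Icc 1 N, g (nrm a) m else 0) := by
      intro a _
      split_ifs with ha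
      · exact hin a ha
      · refine le_of_eq (Finset.sum_eq_zero fun c _ => ?_)
        have : ∀ t : ℝ, wQ (bn T u t) a * (starRingEnd ℂ) (wQ (bn T u t) c) = 0 := by
          intro t
          rw [ah4_wQ _ a, ah4_zero a ha, zero_mul, zero_mul]
        simp only [this, integral_zero, norm_zero]
        norm_num
    refine (Finset.sum_le_sum hle).trans ?_
    exact ah4_sum N (fun n => 8 * ∑ m ∈ Finset.Icc 1 N, g n m)
      (fun n => mul_nonneg (by norm_num) (Finset.sum_nonneg fun m _ => hg0 n m)) _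
      (fun a ha => if_pos ha) (fun a ha => if_neg ha)
  unfold RQM
  calc _ ≤ (1 / 16 : ℝ) * (8 * ∑ n ∈ Finset.Icc 1 N, (8 * ∑ m ∈ Finset.Icc 1 N, g n m)) :=
        mul_le_mul_of_nonneg_left hout (by norm_num)
    _ = 4 * ∑ n ∈ Finset.Icc 1 N, ∑ m ∈ Finset.Icc 1 N, g n m := by
        rw [← Finset.mul_sum]; ring
    _ ≤ 4 * (C * (T ^ 2 + T * (u + 1) ^ 5)) := mul_le_mul_of_nonneg_left h1 (by norm_num)
    _ = _ := by ring

/-- AH4: the second moment (from `hg_sq`, `btc_sum_int`) -/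
theorem mq_le : ∃ C : ℝ, 0 < C ∧ ∀ (N : ℕ) (T κ u : ℝ), 1 ≤ κ → κ ≤ T → 1 ≤ T →
    T ≤ Real.exp (κ ^ 2) → 0 ≤ u →
    0 ≤ MQ N T u ∧ MQ N T u ≤ T / (2 * Real.pi) * SW cK u + C * κ * (u + 1) := by
  obtain ⟨C0, hC0, hS, hcK, hlam⟩ := selb_cK
  obtain ⟨C1, hC1, h1⟩ := btc_sum_int cK C0 hS
  refine ⟨C1, hC1, fun N T κ u hκ _ hT hTκ hu => ?_⟩
  obtain ⟨a1, a2⟩ := h1 T κ u N hκ hT hTκ hu
  have e : (fun t : ℝ => ∑ n ∈ Finset.Icc 1 N, lamK2 n * ‖bn T u t n‖ ^ 2) =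
      fun t => ∑ n ∈ Finset.Icc 1 N, (ArithmeticFunction.vonMangoldt n) ^ 2 *
        ‖cK n * ((Real.sqrt n : ℂ)⁻¹ * bt T u t (Real.log n))‖ ^ 2 := by
    funext t
    refine Finset.sum_congr rfl (fun n _ => ?_)
    rw [hlam n, norm_mul (cK n), mul_pow]
    unfold bn
    ring
  have a1' : Integrable (fun t : ℝ => ∑ n ∈ Finset.Icc 1 N, lamK2 n * ‖bn T u t n‖ ^ 2) := by
    rw [e]; exact a1
  have hpt : ∀ t : ℝ, (1 / 4 : ℝ) * ∑ a ∈ BX N, ‖wQ (bn T u t) a‖ ^ 2 ≤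
      ∑ n ∈ Finset.Icc 1 N, lamK2 n * ‖bn T u t n‖ ^ 2 := by
    intro t
    have h2 := hg_sq 1 N (bn T u t)
    have h3 : ∑ a ∈ BX N, ‖wQ (bn T u t) a‖ ^ 2 ≤ ∑ a ∈ BX N, ‖wZ 1 (bn T u t) a‖ ^ 2 :=
      Finset.sum_le_sum fun a _ =>
        pow_le_pow_left₀ (norm_nonneg _) ((wq_props (bn T u t)).2.2.2.1 a) 2
    linarith
  unfold MQ
  refine ⟨integral_nonneg fun t => by positivity, ?_⟩
  refine (integral_mono_of_nonneg (Filter.Eventually.of_forall fun t => by positivity) a1'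
    (Filter.Eventually.of_forall hpt)).trans ?_
  rw [e]
  exact a2

end H385
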