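import Pool.Agent.H385R8.AHDefs
import Pool.Agent.H385R8.AH2
import Pool.Agent.H385R8.AH3
import Pool.Agent.H385R8.AH4
import Pool.Agent.H385R8.AH12
import Pool.Agent.H385R8.AH13
import Pool.Agent.H385R8.AH14
import Pool.Agent.H385R8.AH15

/-!
TEAM Q4, project AH (helper385), task AH16.
-/

open Complex Filter Topology Set MeasureTheory

set_option maxHeartbeats 4000000

namespace H385

open Pool.Agent.H304R3.HK (tc HC CS bb LamK psi bH aH LH Rep)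

/-- AH16: the mean square over a large subset of the family (from everything above and
`subset_bound`) -/
theorem ah_int (μ δ a s : ℝ) (hμ : 0 < μ) (hμ1 : μ ≤ 1) (hδ : 0 < δ) (hδ1 : δ ≤ 1) (ha : 0 < a)
    (hs : 0 < s) (hs1 : s ≤ 1 / 2) :
    ∃ b C K0 X0 : ℝ, 0 ≤ b ∧ 0 < C ∧ 1 ≤ K0 ∧ 1 ≤ X0 ∧ ∀ (X Y N : ℕ) (T κ u : ℝ), X0 ≤ X →
      K0 * X ≤ Y → (Real.log X) ^ 4 ≤ T → 1 ≤ κ → κ ≤ T → 1 ≤ T → T ≤ Real.exp (κ ^ 2) → 0 ≤ u →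
      u ≤ Real.log X → (N : ℝ) ≤ (X : ℝ) ^ (1 - s) → Tl N u ≤ 1 →
      ∀ E : Finset (Σ q : ZI, MulChar (RQ q) ℂ), E ⊆ FS X Y → μ * Wm X Y ≤ ∑ p ∈ E, wF p →
      ∫ t : ℝ, ∑ p ∈ E, wF p * ‖∑' n : ℕ, aH (chiZ p.1 p.2) n * bn T u t n‖ ^ 2 ≤
        (∑ p ∈ E, wF p) * ((1 + 2 * δ) * YH cK δ C 1 T κ u + T * (a * (u + 1) + b)) := by
  sorry

end H385
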