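import Pool.Agent.H385R4.AE8b

/-!
TEAM Q4, project AH (helper385): the integral of the error part of the majorant.
-/

open Complex Filter Topology Set MeasureTheory

set_option maxHeartbeats 4000000

namespace H385

theorem ah17_int (γ β ε' : ℝ) (h0 : 0 < γ) (hπ : γ < Real.pi) (hβ : 0 < β) (hβ1 : β < 2)
    (hε : 0 < ε') :
    ∃ a : ℝ, 0 < a ∧ a ≤ 1 ∧ ∀ b : ℝ, 0 ≤ b → ∃ L0 : ℝ, 1 ≤ L0 ∧
      ∀ (T ℒ : ℝ), 0 ≤ T → L0 ≤ ℒ →
      (2 / (Real.sqrt Real.pi * (β * ℒ))) *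
        (∫ u in (0 : ℝ)..(β * ℒ), Rw γ (u / (β * ℒ)) * (T * (a * (u + 1) + b))) ≤
      T / (2 * Real.pi) * ℒ * ε' := by
  have hR0 : 0 ≤ Rw γ 0 := Rw_nonneg γ h0 hπ 0
  set R0 : ℝ := Rw γ 0 with hR0d
  obtain ⟨a, ha, ha1, ha2⟩ : ∃ a : ℝ, 0 < a ∧ a ≤ 1 ∧ R0 * a ≤ ε' / 64 := by
    refine ⟨min 1 (ε' / 64 / (R0 + 1)), lt_min one_pos (by positivity), min_le_left _ _, ?_⟩
    calc R0 * min 1 (ε' / 64 / (R0 + 1)) ≤ (R0 + 1) * (ε' / 64 / (R0 + 1)) := by
          gcongr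
          · linarith
          · exact min_le_right _ _
      _ = ε' / 64 := by field_simp
  refine ⟨a, ha, ha1, fun b hb => ?_⟩
  set K : ℝ := R0 * (4 * a + 2 * b) with hK
  have hK0 : 0 ≤ K := by positivity
  have hβi : 0 < 1 / β := by positivity
  have hKε : 0 ≤ 32 * K / ε' := by positivity
  refine ⟨1 / β + 32 * K / ε' + 1, by linarith, ?_⟩
  intro T ℒ hT hℒ
  have hℒ1 : 1 ≤ ℒ := by linarith
  have hℒ0 : 0 ≤ ℒ := by linarith
  have hΛ1 : 1 ≤ β * ℒ := by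
    have : 1 / β ≤ ℒ := by linarith
    rw [div_le_iff₀ hβ] at this
    linarith
  set Λ := β * ℒ with hΛ
  have hΛ0 : 0 < Λ := by linarith
  have hRc := Rw_cont γ h0 hπ
  have hpi := Real.pi_pos
  have hEc : Continuous (fun u : ℝ => T * (a * (u + 1) + b)) := by fun_prop
  have hpt : ∀ u ∈ Set.Icc 0 Λ, Rw γ (u / Λ) * (T * (a * (u + 1) + b)) ≤
      R0 * (T * (a * (u + 1) + b)) := by
    intro u hu
    obtain ⟨hu0, hu2⟩ := hu
    have hRle : Rw γ (u / Λ) ≤ R0 := Rw_le γ h0 hπ _ (div_nonneg hu0 hΛ0.le)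
    have hn : 0 ≤ T * (a * (u + 1) + b) := by positivity
    exact mul_le_mul_of_nonneg_right hRle hn
  have hI1 : ∫ u in (0 : ℝ)..Λ, Rw γ (u / Λ) * (T * (a * (u + 1) + b)) ≤
      ∫ u in (0 : ℝ)..Λ, R0 * (T * (a * (u + 1) + b)) := by
    refine intervalIntegral.integral_mono_on hΛ0.le ?_ ?_ hpt
    · exact ((hRc.comp (continuous_id.div_const Λ)).mul hEc).intervalIntegrable _ _
    · exact (hEc.const_mul _).intervalIntegrable _ _
  have hI3 : ∫ u in (0 : ℝ)..Λ, T * (a * (u + 1) + b) = T * (a * (Λ ^ 2 / 2 + Λ) + b * Λ) := by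
    have ii : IntervalIntegrable (fun u : ℝ => u) volume 0 Λ := continuous_id.intervalIntegrable _ _
    have j3 : IntervalIntegrable (fun u : ℝ => a * (u + 1)) volume 0 Λ := by
      apply Continuous.intervalIntegrable; fun_prop
    rw [intervalIntegral.integral_const_mul, intervalIntegral.integral_add j3
        (continuous_const.intervalIntegrable _ _), intervalIntegral.integral_const_mul,
        intervalIntegral.integral_add ii (continuous_const.intervalIntegrable _ _)]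
    simp only [integral_id, intervalIntegral.integral_const, smul_eq_mul]
    ring
  rw [intervalIntegral.integral_const_mul, hI3] at hI1
  have hsp : 1 ≤ Real.sqrt Real.pi := by
    rw [Real.one_le_sqrt]; linarith [Real.pi_gt_three]
  have hsp0 : 0 < Real.sqrt Real.pi := by linarith
  set P : ℝ := 2 / (Real.sqrt Real.pi * Λ) with hP
  have hP0 : 0 ≤ P := by positivity
  have hPΛ : P * Λ ≤ 2 := by
    rw [hP]
    have : 2 / (Real.sqrt Real.pi * Λ) * Λ = 2 / Real.sqrt Real.pi := by field_simp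
    rw [this, div_le_iff₀ hsp0]; linarith
  have hΛℒ : Λ ≤ 2 * ℒ := by
    rw [hΛ]
    exact mul_le_mul_of_nonneg_right hβ1.le hℒ0
  have m2 : P * (R0 * (T * (a * (Λ ^ 2 / 2 + Λ) + b * Λ))) ≤
      T * (2 * (R0 * a) * ℒ) + T * K := by
    calc _ = (P * Λ) * (T * R0 * (a * (Λ / 2 + 1) + b)) := by ring
      _ ≤ 2 * (T * R0 * (a * (2 * ℒ / 2 + 1) + b)) := by gcongr
      _ ≤ _ := by
        have : 0 ≤ T * R0 * a := by positivity
        have e : T * (2 * (R0 * a) * ℒ) + T * K =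
          2 * (T * R0 * (a * (2 * ℒ / 2 + 1) + b)) + 2 * (T * R0 * a) := by rw [hK]; ring
        rw [e]; linarith
  have hKℒ : K ≤ ε' / 32 * ℒ := by
    have h1 : 32 * K / ε' ≤ ℒ := by linarith
    rw [div_le_iff₀ hε] at h1
    linarith
  have f0 : R0 * a * ℒ ≤ ε' / 64 * ℒ := mul_le_mul_of_nonneg_right ha2 hℒ0
  have f1 : T * (2 * (R0 * a) * ℒ) + T * K ≤ T * (ε' / 16 * ℒ) := by
    rw [← mul_add]
    refine mul_le_mul_of_nonneg_left ?_ hT
    linarith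
  have f2 : T * (ε' / 16 * ℒ) ≤ T / (2 * Real.pi) * ℒ * ε' := by
    have h3 : 1 / 8 ≤ 1 / (2 * Real.pi) := by
      apply one_div_le_one_div_of_le (by positivity)
      linarith [Real.pi_lt_four]
    have n : 0 ≤ T * ℒ * ε' := by positivity
    calc T * (ε' / 16 * ℒ) = (1 / 16) * (T * ℒ * ε') := by ring
      _ ≤ (1 / 8) * (T * ℒ * ε') := by gcongr; norm_num
      _ ≤ (1 / (2 * Real.pi)) * (T * ℒ * ε') := by gcongr
      _ = _ := by ring
  calc _ ≤ P * (R0 * (T * (a * (Λ ^ 2 / 2 + Λ) + b * Λ))) := mul_le_mul_of_nonneg_left hI1 hP0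
    _ ≤ _ := m2.trans (f1.trans f2)

/-- length of the prime sum -/
theorem ah17_short (β s η x ℒ : ℝ) (hβ : 0 < β) (hs : 0 < s) (hβs : β = 2 - 8 * s)
    (hη : 0 < η) (hηs : η ≤ s / 3) (hx : 2 / s ≤ x) (hℒ0 : 0 ≤ ℒ)
    (hℒ : ℒ ≤ (1 / 2 + 3 / 2 * η) * x) (N : ℕ) (hN : (N : ℝ) ≤ 2 * Real.exp (β * ℒ + s * (2 * ℒ))) :
    (N : ℝ) ≤ Real.exp ((1 - s) * x) ∧ β * ℒ ≤ x := by
  have hx0 : 0 < x := lt_of_lt_of_le (by positivity) hx
  have h1 : β * ℒ + s * (2 * ℒ) ≤ (1 - 2 * s) * x := by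
    have e : β * ℒ + s * (2 * ℒ) = (2 - 6 * s) * ℒ := by rw [hβs]; ring
    rw [e]
    have h2 : 0 ≤ 2 - 6 * s := by linarith
    have h3 : (2 - 6 * s) * ℒ ≤ (2 - 6 * s) * ((1 / 2 + 3 / 2 * η) * x) :=
      mul_le_mul_of_nonneg_left hℒ h2
    refine h3.trans ?_
    have h4 : (2 - 6 * s) * (1 / 2 + 3 / 2 * η) ≤ 1 - 2 * s := by nlinarith
    calc (2 - 6 * s) * ((1 / 2 + 3 / 2 * η) * x) = ((2 - 6 * s) * (1 / 2 + 3 / 2 * η)) * x := by ring
      _ ≤ _ := mul_le_mul_of_nonneg_right h4 hx0.le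
  have h2 : (2 : ℝ) ≤ Real.exp (s * x) := by
    have h3 : 2 ≤ s * x := by
      rw [div_le_iff₀ hs] at hx
      linarith
    have := Real.add_one_le_exp (s * x)
    linarith
  constructor
  · refine hN.trans ?_
    calc 2 * Real.exp (β * ℒ + s * (2 * ℒ)) ≤ Real.exp (s * x) * Real.exp ((1 - 2 * s) * x) :=
          mul_le_mul h2 (Real.exp_le_exp.mpr h1) (Real.exp_pos _).le (Real.exp_pos _).le
      _ = Real.exp ((1 - s) * x) := by rw [← Real.exp_add]; congr 1; ring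
  · have h5 : 0 ≤ s * (2 * ℒ) := by positivity
    have h6 : (1 - 2 * s) * x ≤ 1 * x := mul_le_mul_of_nonneg_right (by linarith) hx0.le
    linarith

end H385
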