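import Pool.Agent.H385R8.AH17
import Pool.Agent.H385R2.WinE

/-!
TEAM Q4, project AH (helper385): almost every primitive Hecke character.
-/

open Complex Filter Topology Set MeasureTheory
open H370 (zset mult NN Nd Ns)

set_option maxHeartbeats 4000000

namespace H385

open Pool.Agent.H304R3.HK (tc HC CS bb LamK psi bH aH LH tc_star_mul one_le_norm_tc)

/-- every subset of positive mass -/
theorem ah_subset (μ : ℝ) (hμ : 0 < μ) (hμ1 : μ ≤ 1) : ∃ K0 η X0 : ℝ, 1 ≤ K0 ∧ 0 < η ∧ 1 ≤ X0 ∧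
      ∀ (X Y : ℕ) (T : ℝ), X0 ≤ X → K0 * X ≤ Y → (Y : ℝ) ≤ (X : ℝ) ^ (1 + η) →
      (Real.log X) ^ 4 ≤ T → T ≤ (X : ℝ) ^ η → 0 < Wm X Y ∧ 1 ≤ T ∧
      ∀ E : Finset (Σ q : ZI, MulChar (RQ q) ℂ), E ⊆ FS X Y → μ * Wm X Y ≤ ∑ p ∈ E, wF p →
      0 < ∑ p ∈ E, wF p ∧
      (∑ p ∈ E, wF p * (2 * (NN (LH (chiZ p.1 p.2)) T (2 * T) : ℝ) -
          (Ns (LH (chiZ p.1 p.2)) T (2 * T) : ℝ)) ≤
        1.3275 * ∑ p ∈ E, wF p * (NN (LH (chiZ p.1 p.2)) T (2 * T) : ℝ)) ∧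
      (∑ p ∈ E, wF p * (3 * (NN (LH (chiZ p.1 p.2)) T (2 * T) : ℝ) -
          2 * (Nd (LH (chiZ p.1 p.2)) T (2 * T) : ℝ)) ≤
        1.3275 * ∑ p ∈ E, wF p * (NN (LH (chiZ p.1 p.2)) T (2 * T) : ℝ)) := by
  have h0 : (0 : ℝ) < 1.414 := by norm_num
  have hπ : (1.414 : ℝ) < Real.pi := by linarith [Real.pi_gt_three]
  set R0 : ℝ := Rw 1.414 0 with hR0
  have hR0n : 0 ≤ R0 := Rw_nonneg 1.414 h0 hπ 0
  set J : ℝ := ∫ α in (0 : ℝ)..1, α * Rw 1.414 α with hJ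
  have hJn : 0 ≤ J := I1_nonneg 1.414 h0 hπ
  have hconst : R0 + 2 * J < 1.3275 := Rw_const_d2
  set e : ℝ := 1.3275 - (R0 + 2 * J) with he
  have he0 : 0 < e := by rw [he]; linarith
  set s : ℝ := min (1 / 2) (e / (4 * R0 + 1)) with hs
  have hs0 : 0 < s := by positivity
  have hs1 : s ≤ 1 / 2 := min_le_left _ _
  have hs2 : 4 * R0 * s ≤ e := by
    have h1 : s ≤ e / (4 * R0 + 1) := min_le_right _ _
    calc 4 * R0 * s ≤ 4 * R0 * (e / (4 * R0 + 1)) := mul_le_mul_of_nonneg_left h1 (by positivity)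
      _ = e * (4 * R0 / (4 * R0 + 1)) := by ring
      _ ≤ e * 1 := by
        refine mul_le_mul_of_nonneg_left ?_ he0.le
        rw [div_le_one (by positivity)]; linarith
      _ = e := mul_one e
  set β : ℝ := 1 - s with hβ
  have hβ0 : 0 < β := by rw [hβ]; linarith
  have hβ1 : β < 1 := by rw [hβ]; linarith
  have hβh : 1 / 2 ≤ β := by rw [hβ]; linarith
  have e2 : R0 / β ≤ R0 + e / 2 := by
    rw [div_le_iff₀ hβ0]
    have h1 : (R0 + e / 2) * β = R0 - R0 * s + e / 2 * β := by rw [hβ]; ring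
    have h2 : e / 2 * (1 / 2) ≤ e / 2 * β := mul_le_mul_of_nonneg_left hβh (by linarith)
    rw [h1]
    linarith
  have e3 : 2 * β * J ≤ 2 * J := by
    have : 2 * β * J = 2 * (β * J) := by ring
    rw [this]
    have : β * J ≤ 1 * J := mul_le_mul_of_nonneg_right hβ1.le hJn
    linarith
  obtain ⟨K0, η, X0, hK, hη, hX0, h⟩ := ah_core 1.414 (2 * β) (e / 2) μ h0 hπ (by linarith)
    (by linarith) (by positivity) hμ hμ1
  refine ⟨K0, η, X0, hK, hη, hX0, ?_⟩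
  intro X Y T a1 a2 a3 a4 a5
  obtain ⟨w1, w2, w3⟩ := h X Y T a1 a2 a3 a4 a5
  refine ⟨w1, w2, fun E hE hEW => ?_⟩
  obtain ⟨b0, b1, b2⟩ := w3 E hE hEW
  have hcc : 2 * Rw 1.414 0 / (2 * β) + 2 * β * (∫ α in (0 : ℝ)..1, α * Rw 1.414 α) + e / 2 ≤
      1.3275 := by
    have e4 : 2 * Rw 1.414 0 / (2 * β) = R0 / β := by
      rw [← hR0, mul_div_mul_left _ _ (by norm_num : (2 : ℝ) ≠ 0)]
    rw [e4, ← hJ]
    have : R0 + 2 * J + e = 1.3275 := by rw [he]; ring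
    linarith
  have hSN0 : 0 ≤ ∑ p ∈ E, wF p * (NN (LH (chiZ p.1 p.2)) T (2 * T) : ℝ) :=
    Finset.sum_nonneg fun p _ => by unfold wF; positivity
  have c3 := mul_le_mul_of_nonneg_right hcc hSN0
  exact ⟨b0, b1.trans c3, b2.trans c3⟩

theorem ah18_pos {X Y : ℕ} {p : Σ q : ZI, MulChar (RQ q) ℂ} (hp : p ∈ FS X Y) : 0 < wF p := by
  obtain ⟨hq0, hXq, hqY, hpr, him⟩ := (fs_mem X Y p).1 hp
  unfold wF
  have : 0 < nrm p.1 := by omega
  have : (0 : ℝ) < nrm p.1 := by exact_mod_cast this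
  positivity

/-- exceptional sets -/
theorem ah_all (ε : ℝ) (hε : 0 < ε) : ∃ K0 η X0 : ℝ, 1 ≤ K0 ∧ 0 < η ∧ 1 ≤ X0 ∧
      ∀ (X Y : ℕ) (T : ℝ), X0 ≤ X → K0 * X ≤ Y → (Y : ℝ) ≤ (X : ℝ) ^ (1 + η) →
      (Real.log X) ^ 4 ≤ T → T ≤ (X : ℝ) ^ η → 0 < Wm X Y ∧ 1 ≤ T ∧
      ∀ E : Finset (Σ q : ZI, MulChar (RQ q) ℂ), E ⊆ FS X Y →
      (∀ p ∈ E, (Ns (LH (chiZ p.1 p.2)) T (2 * T) : ℝ) <
          0.6725 * (NN (LH (chiZ p.1 p.2)) T (2 * T) : ℝ) ∨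
        (Nd (LH (chiZ p.1 p.2)) T (2 * T) : ℝ) <
          0.83625 * (NN (LH (chiZ p.1 p.2)) T (2 * T) : ℝ)) →
      ∑ p ∈ E, wF p ≤ ε * Wm X Y := by
  classical
  obtain ⟨K0, η, X0, hK, hη, hX0, h⟩ := ah_subset (min (ε / 2) 1) (lt_min (by positivity) one_pos)
    (min_le_right _ _)
  refine ⟨K0, η, X0, hK, hη, hX0, ?_⟩
  intro X Y T a1 a2 a3 a4 a5
  obtain ⟨w1, w2, w3⟩ := h X Y T a1 a2 a3 a4 a5
  refine ⟨w1, w2, fun E hE hbad => ?_⟩
  -- simple zeros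
  have key1 : ∀ F : Finset (Σ q : ZI, MulChar (RQ q) ℂ), F ⊆ FS X Y →
      (∀ p ∈ F, (Ns (LH (chiZ p.1 p.2)) T (2 * T) : ℝ) <
          0.6725 * (NN (LH (chiZ p.1 p.2)) T (2 * T) : ℝ)) →
      ∑ p ∈ F, wF p ≤ ε / 2 * Wm X Y := by
    intro F hF hb
    by_contra hcon
    rw [not_le] at hcon
    have hmass : min (ε / 2) 1 * Wm X Y ≤ ∑ p ∈ F, wF p :=
      (mul_le_mul_of_nonneg_right (min_le_left _ _) w1.le).trans hcon.le
    obtain ⟨b0, b1, -⟩ := w3 F hF hmass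
    have hne : F.Nonempty := by
      rw [Finset.nonempty_iff_ne_empty]
      rintro rfl
      simp at b0
    refine absurd b1 (not_le.mpr ?_)
    rw [Finset.mul_sum]
    refine Finset.sum_lt_sum_of_nonempty hne fun p hp => ?_
    have hω := ah18_pos (hF hp)
    have hb' := hb p hp
    have : 1.3275 * (NN (LH (chiZ p.1 p.2)) T (2 * T) : ℝ) <
        2 * (NN (LH (chiZ p.1 p.2)) T (2 * T) : ℝ) -
          (Ns (LH (chiZ p.1 p.2)) T (2 * T) : ℝ) := by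
      norm_num at hb' ⊢
      linarith
    calc _ = wF p * (1.3275 * (NN (LH (chiZ p.1 p.2)) T (2 * T) : ℝ)) := by ring
      _ < _ := mul_lt_mul_of_pos_left this hω
  -- distinct zeros
  have key2 : ∀ F : Finset (Σ q : ZI, MulChar (RQ q) ℂ), F ⊆ FS X Y →
      (∀ p ∈ F, (Nd (LH (chiZ p.1 p.2)) T (2 * T) : ℝ) <
          0.83625 * (NN (LH (chiZ p.1 p.2)) T (2 * T) : ℝ)) →
      ∑ p ∈ F, wF p ≤ ε / 2 * Wm X Y := by
    intro F hF hb
    by_contra hcon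
    rw [not_le] at hcon
    have hmass : min (ε / 2) 1 * Wm X Y ≤ ∑ p ∈ F, wF p :=
      (mul_le_mul_of_nonneg_right (min_le_left _ _) w1.le).trans hcon.le
    obtain ⟨b0, -, b1⟩ := w3 F hF hmass
    have hne : F.Nonempty := by
      rw [Finset.nonempty_iff_ne_empty]
      rintro rfl
      simp at b0
    refine absurd b1 (not_le.mpr ?_)
    rw [Finset.mul_sum]
    refine Finset.sum_lt_sum_of_nonempty hne fun p hp => ?_
    have hω := ah18_pos (hF hp)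
    have hb' := hb p hp
    have : 1.3275 * (NN (LH (chiZ p.1 p.2)) T (2 * T) : ℝ) <
        3 * (NN (LH (chiZ p.1 p.2)) T (2 * T) : ℝ) -
          2 * (Nd (LH (chiZ p.1 p.2)) T (2 * T) : ℝ) := by
      norm_num at hb' ⊢
      linarith
    calc _ = wF p * (1.3275 * (NN (LH (chiZ p.1 p.2)) T (2 * T) : ℝ)) := by ring
      _ < _ := mul_lt_mul_of_pos_left this hω
  have f1 := key1 (E.filter (fun p => (Ns (LH (chiZ p.1 p.2)) T (2 * T) : ℝ) <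
          0.6725 * (NN (LH (chiZ p.1 p.2)) T (2 * T) : ℝ)))
    ((Finset.filter_subset _ _).trans hE) (fun p hp => (Finset.mem_filter.mp hp).2)
  have f2 := key2 (E.filter (fun p => ¬ (Ns (LH (chiZ p.1 p.2)) T (2 * T) : ℝ) <
          0.6725 * (NN (LH (chiZ p.1 p.2)) T (2 * T) : ℝ)))
    ((Finset.filter_subset _ _).trans hE) (fun p hp => by
      obtain ⟨g1, g2⟩ := Finset.mem_filter.mp hp
      rcases hbad p g1 with g3 | g3
      · exact absurd g3 g2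
      · exact g3)
  rw [← Finset.sum_filter_add_sum_filter_not E (fun p => (Ns (LH (chiZ p.1 p.2)) T (2 * T) : ℝ) <
          0.6725 * (NN (LH (chiZ p.1 p.2)) T (2 * T) : ℝ))]
  linarith

end H385
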